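import Mathlib

/-!
The covering map `E N` from the plane onto the punctured plane, with deck group generated by
`(u, v) ↦ (u + N, v - N)`.
-/

set_option autoImplicit false

namespace Pool.Agent.Lib.MP_24d225_co

open Set Topology

/-- The linear change of coordinates `(u, v) ↦ (u + v) + i π (u - v) / N`. -/
noncomputable def lin (N : ℕ) (hN : 0 < N) : (ℝ × ℝ) ≃ₜ ℂ where
  toFun w := ⟨w.1 + w.2, Real.pi * (w.1 - w.2) / N⟩
  invFun z := ((z.re + N * z.im / Real.pi) / 2, (z.re - N * z.im / Real.pi) / 2)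
  left_inv := by
    rintro ⟨u, v⟩
    have h1 : (N : ℝ) ≠ 0 := by positivity
    have h2 := Real.pi_ne_zero
    ext
    · simp only []
      field_simp
      ring
    · simp only []
      field_simp
      ring
  right_inv := by
    intro z
    have h1 : (N : ℝ) ≠ 0 := by positivity
    have h2 := Real.pi_ne_zero
    apply Complex.ext
    · simp only []
      ring
    · simp only []
      field_simp
      ring
  continuous_toFun := by
    have : (fun w : ℝ × ℝ => (⟨w.1 + w.2, Real.pi * (w.1 - w.2) / N⟩ : ℂ)) =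
        fun w : ℝ × ℝ => Complex.equivRealProdCLM.symm (w.1 + w.2, Real.pi * (w.1 - w.2) / N) := by
      funext w
      apply Complex.ext <;> simp [Complex.equivRealProdCLM_symm_apply]
    change Continuous (fun w : ℝ × ℝ => (⟨w.1 + w.2, Real.pi * (w.1 - w.2) / N⟩ : ℂ))
    rw [this]
    fun_prop
  continuous_invFun := by
    fun_prop

/-- The covering map. -/
noncomputable def E (N : ℕ) (hN : 0 < N) (w : ℝ × ℝ) : ℝ × ℝ :=
  Complex.equivRealProdCLM (Complex.exp (lin N hN w))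

variable {N : ℕ} (hN : 0 < N)

theorem lin_re (w : ℝ × ℝ) : (lin N hN w).re = w.1 + w.2 := rfl

theorem lin_im (w : ℝ × ℝ) : (lin N hN w).im = Real.pi * (w.1 - w.2) / N := rfl

theorem E_cont : Continuous (E N hN) := by
  unfold E
  fun_prop

theorem E_open : IsOpenMap (E N hN) :=
  Complex.equivRealProdCLM.toHomeomorph.isOpenMap.comp
    (Complex.isOpenMap_exp.comp (lin N hN).isOpenMap)

theorem E_eq_iff (w w' : ℝ × ℝ) :
    E N hN w = E N hN w' ↔ ∃ k : ℤ, w.1 = w'.1 + k * N ∧ w.2 = w'.2 - k * N := by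
  unfold E
  rw [Complex.equivRealProdCLM.injective.eq_iff, Complex.exp_eq_exp_iff_exists_int]
  have h1 : (N : ℝ) ≠ 0 := by positivity
  have h2 := Real.pi_ne_zero
  refine exists_congr fun k => ?_
  rw [Complex.ext_iff]
  simp only [lin_re, lin_im, Complex.add_re, Complex.add_im, Complex.mul_re, Complex.mul_im,
    Complex.intCast_re, Complex.intCast_im, Complex.re_ofNat, Complex.im_ofNat,
    Complex.ofReal_re, Complex.ofReal_im, Complex.I_re, Complex.I_im, mul_zero, zero_mul,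
    sub_zero, add_zero, mul_one, sub_self]
  constructor
  · rintro ⟨ha, hb⟩
    have hb' : w.1 - w.2 = w'.1 - w'.2 + 2 * k * N := by
      field_simp at hb
      linarith
    constructor <;> linarith
  · rintro ⟨ha, hb⟩
    rw [ha, hb]
    constructor
    · ring
    · field_simp
      ring

theorem E_surj (q : ℝ × ℝ) (hq : q ≠ 0) : ∃ w, E N hN w = q := by
  have h0 : Complex.equivRealProdCLM.symm q ≠ 0 := by
    intro h
    apply hq
    have := congrArg Complex.equivRealProdCLM h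
    rwa [ContinuousLinearEquiv.apply_symm_apply, map_zero] at this
  refine ⟨(lin N hN).symm (Complex.log (Complex.equivRealProdCLM.symm q)), ?_⟩
  unfold E
  rw [Homeomorph.apply_symm_apply, Complex.exp_log h0, ContinuousLinearEquiv.apply_symm_apply]

/-- The open unit disc. -/
def disc : Set (ℝ × ℝ) := {q | ‖Complex.equivRealProdCLM.symm q‖ < 1}

theorem disc_open : IsOpen disc := by
  unfold disc
  exact isOpen_lt (by fun_prop) continuous_const

theorem zero_mem_disc : (0 : ℝ × ℝ) ∈ disc := by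
  simp [disc]

theorem E_mem_disc (w : ℝ × ℝ) (h : E N hN w ∈ disc) : w.1 + w.2 < 0 := by
  unfold disc E at h
  simp only [mem_ofPred_eq, ContinuousLinearEquiv.symm_apply_apply, Complex.norm_exp, lin_re] at h
  exact Real.exp_lt_one_iff.mp h

theorem E_ne_zero (w : ℝ × ℝ) : E N hN w ≠ 0 := by
  unfold E
  intro h
  have := congrArg Complex.equivRealProdCLM.symm h
  rw [ContinuousLinearEquiv.symm_apply_apply, map_zero] at this
  exact Complex.exp_ne_zero _ this

theorem exp_local (z : ℂ) : ∃ g : ℂ ≃ₜ ℂ, ∃ s ∈ 𝓝 z, EqOn Complex.exp g s := by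
  have hz := Complex.exp_ne_zero z
  let D : ℂ ≃L[ℝ] ℂ := ContinuousLinearEquiv.equivOfInverse
    (Complex.exp z • (1 : ℂ →L[ℝ] ℂ)) ((Complex.exp z)⁻¹ • (1 : ℂ →L[ℝ] ℂ))
    (fun x => by simp [hz]) (fun x => by simp [hz])
  have hD : HasStrictFDerivAt Complex.exp (D : ℂ →L[ℝ] ℂ) z :=
    Complex.hasStrictFDerivAt_exp_real z
  have hpos : 0 < ‖(D.symm : ℂ →L[ℝ] ℂ)‖₊⁻¹ := by
    rcases D.subsingleton_or_nnnorm_symm_pos with h | h
    · exact absurd h (not_subsingleton ℂ)
    · exact inv_pos.mpr h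
  have hL : 0 < lipschitzExtensionConstant ℂ := lipschitzExtensionConstant_pos ℂ
  obtain ⟨s, hs, happ⟩ := hD.approximates_deriv_on_nhds
    (c := ‖(D.symm : ℂ →L[ℝ] ℂ)‖₊⁻¹ / (2 * lipschitzExtensionConstant ℂ))
    (Or.inr (by positivity))
  obtain ⟨g, hg⟩ := happ.exists_homeomorph_extension (Or.inr (by
    rw [mul_div_assoc', div_lt_iff₀ (by positivity)]
    nlinarith [mul_pos hpos hL]))
  exact ⟨g, s, hs, hg⟩

theorem E_local (w : ℝ × ℝ) :
    ∃ g : (ℝ × ℝ) ≃ₜ (ℝ × ℝ), ∃ s ∈ 𝓝 w, EqOn (E N hN) g s := by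
  obtain ⟨g, s, hs, hg⟩ := exp_local (lin N hN w)
  refine ⟨(lin N hN).trans (g.trans Complex.equivRealProdCLM.toHomeomorph), lin N hN ⁻¹' s,
    (lin N hN).continuous.continuousAt.preimage_mem_nhds hs, ?_⟩
  intro x hx
  unfold E
  rw [hg hx]
  rfl

/-- A crossing that is straight in the coordinates of the cover is a proper crossing. -/
theorem crossing (w : ℝ × ℝ) (A B : Set (ℝ × ℝ))
    (hA : ∀ x : ℝ × ℝ, |x.1 - w.1| < 1 / 4 → |x.2 - w.2| < 1 / 4 → (E N hN x ∈ A ↔ x.2 = w.2))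
    (hB : ∀ x : ℝ × ℝ, |x.1 - w.1| < 1 / 4 → |x.2 - w.2| < 1 / 4 → (E N hN x ∈ B ↔ x.1 = w.1)) :
    ∃ φ : (ℝ × ℝ) ≃ₜ (ℝ × ℝ), φ (E N hN w) = 0 ∧
      ∀ q, ‖φ q‖ < 1 → ((q ∈ A ↔ (φ q).2 = 0) ∧ (q ∈ B ↔ (φ q).1 = 0)) := by
  obtain ⟨g, s, hs, hg⟩ := E_local hN w
  obtain ⟨ε, hε, hball⟩ := Metric.mem_nhds_iff.mp hs
  set δ : ℝ := min ε (1 / 4) with hδ
  have hδ0 : 0 < δ := lt_min hε (by norm_num)
  have hδ1 : δ ≤ ε := min_le_left _ _
  have hδ2 : δ ≤ 1 / 4 := min_le_right _ _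
  let φ : (ℝ × ℝ) ≃ₜ (ℝ × ℝ) := g.symm.trans ((Homeomorph.subRight w).trans
    (Homeomorph.smulOfNeZero δ⁻¹ (inv_ne_zero hδ0.ne')))
  have hφ : ∀ q, φ q = δ⁻¹ • (g.symm q - w) := fun q => rfl
  refine ⟨φ, ?_, ?_⟩
  · rw [hφ, hg (mem_of_mem_nhds hs)]
    simp
  · intro q hq
    rw [hφ] at hq ⊢
    set x := g.symm q with hx
    have hn : ‖x - w‖ < δ := by
      rw [norm_smul, norm_inv, Real.norm_eq_abs, abs_of_pos hδ0, inv_mul_lt_iff₀ hδ0] at hq
      simpa using hq
    have hxs : x ∈ s := hball (by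
      rw [Metric.mem_ball, dist_eq_norm]
      exact lt_of_lt_of_le hn hδ1)
    have hq' : q = E N hN x := by
      rw [hg hxs, hx]
      simp
    have h1 : |x.1 - w.1| < 1 / 4 := by
      have := norm_fst_le (x - w)
      rw [Real.norm_eq_abs] at this
      simp only [Prod.fst_sub] at this
      linarith
    have h2 : |x.2 - w.2| < 1 / 4 := by
      have := norm_snd_le (x - w)
      rw [Real.norm_eq_abs] at this
      simp only [Prod.snd_sub] at this
      linarith
    rw [hq', hA x h1 h2, hB x h1 h2]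
    simp only [Prod.smul_snd, Prod.smul_fst, Prod.snd_sub, Prod.fst_sub, smul_eq_mul,
      mul_eq_zero, inv_eq_zero, hδ0.ne', false_or, sub_eq_zero, and_self]

end Pool.Agent.Lib.MP_24d225_co
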