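import Mathlib
import Pool.Agent.Lib.MP_24d225_co.Chart

/-!
The hook shaped arcs of the drawing, in the cover and in the plane.
-/

set_option autoImplicit false

namespace Pool.Agent.Lib.MP_24d225_co

open Set Topology

/-- The hook with corner `(a, b)` and arms of length `N - 1/2`. -/
def Gam (N : ℕ) (a b : ℤ) (w : ℝ × ℝ) : Prop :=
  (w.1 = a ∧ (b : ℝ) - N + 1 / 2 ≤ w.2 ∧ w.2 ≤ b) ∨ (w.2 = b ∧ (a : ℝ) ≤ w.1 ∧ w.1 ≤ a + N - 1 / 2)

/-- The parametrisation of the hook. -/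
noncomputable def hook (N : ℕ) (a b : ℤ) (s : unitInterval) : ℝ × ℝ :=
  (a + max ((2 * (s : ℝ) - 1) * (N - 1 / 2)) 0, b + min ((2 * (s : ℝ) - 1) * (N - 1 / 2)) 0)

variable {N : ℕ} (hN : 0 < N)

theorem hook_cont (a b : ℤ) : Continuous (hook N a b) := by
  unfold hook
  fun_prop

theorem hook_time (a b : ℤ) (s : unitInterval) :
    (hook N a b s).1 + (hook N a b s).2 = a + b + (2 * (s : ℝ) - 1) * (N - 1 / 2) := by
  unfold hook
  simp only []
  have := max_add_min ((2 * (s : ℝ) - 1) * (N - 1 / 2)) 0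
  linarith

include hN in
theorem hook_range (a b : ℤ) (w : ℝ × ℝ) : (∃ s, hook N a b s = w) ↔ Gam N a b w := by
  have h1 : (1 : ℝ) ≤ N := by exact_mod_cast hN
  have hL : (0 : ℝ) < N - 1 / 2 := by linarith
  constructor
  · rintro ⟨s, rfl⟩
    have hs0 := s.2.1
    have hs1 := s.2.2
    unfold Gam hook
    simp only []
    rcases le_total ((2 * (s : ℝ) - 1) * (N - 1 / 2)) 0 with h | h
    · left
      rw [max_eq_right h, min_eq_left h]
      refine ⟨by simp, ?_, ?_⟩ <;> nlinarith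
    · right
      rw [max_eq_left h, min_eq_right h]
      refine ⟨by simp, ?_, ?_⟩ <;> nlinarith
  · intro hw
    have key : ∀ σ : ℝ, -(N - 1 / 2) ≤ σ → σ ≤ N - 1 / 2 →
        ∃ s : unitInterval, (2 * (s : ℝ) - 1) * (N - 1 / 2) = σ := by
      intro σ h2 h3
      refine ⟨⟨(σ / (N - 1 / 2) + 1) / 2, ?_, ?_⟩, ?_⟩
      · have : -1 ≤ σ / (N - 1 / 2) := by
          rw [le_div_iff₀ hL]
          linarith
        linarith
      · have : σ / (N - 1 / 2) ≤ 1 := by
          rw [div_le_iff₀ hL]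
          linarith
        linarith
      · simp only []
        have := div_mul_cancel₀ σ hL.ne'
        linarith
    rcases hw with ⟨h2, h3, h4⟩ | ⟨h2, h3, h4⟩
    · obtain ⟨s, hs⟩ := key (w.2 - b) (by linarith) (by linarith)
      refine ⟨s, ?_⟩
      unfold hook
      rw [hs, max_eq_right (by linarith), min_eq_left (by linarith)]
      ext <;> simp [h2]
    · obtain ⟨s, hs⟩ := key (w.1 - a) (by linarith) (by linarith)
      refine ⟨s, ?_⟩
      unfold hook
      rw [hs, max_eq_left (by linarith), min_eq_right (by linarith)]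
      ext <;> simp [h2]

theorem Gam_shift (a b k : ℤ) (w w' : ℝ × ℝ) (h1 : w.1 = w'.1 + k * N) (h2 : w.2 = w'.2 - k * N) :
    Gam N a b w' ↔ Gam N (a + k * N) (b - k * N) w := by
  unfold Gam
  rw [h1, h2]
  push_cast
  constructor
  · rintro (⟨h3, h4, h5⟩ | ⟨h3, h4, h5⟩)
    · left
      refine ⟨?_, ?_, ?_⟩ <;> linarith
    · right
      refine ⟨?_, ?_, ?_⟩ <;> linarith
  · rintro (⟨h3, h4, h5⟩ | ⟨h3, h4, h5⟩)
    · left
      refine ⟨?_, ?_, ?_⟩ <;> linarith
    · right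
      refine ⟨?_, ?_, ?_⟩ <;> linarith

/-- The shape of a crossing of the hooks at `(a, b)` and `(a', b')`. -/
def Cross (N : ℕ) (a b a' b' : ℤ) (w : ℝ × ℝ) : Prop :=
  a' + b' = a + b + N ∧ w.1 = a' ∧ w.2 = b ∧ a < a' ∧ a' < a + N

theorem mul_cases (hN : 0 < N) (m x : ℤ) (hx : x = m * N) (h1 : -(N : ℤ) < x) (h2 : x < 2 * N) :
    x = 0 ∨ x = N := by
  have hN' : (0 : ℤ) < N := by exact_mod_cast hN
  subst hx
  have h3 : -1 < m := by
    by_contra h
    push Not at h
    nlinarith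
  have h4 : m < 2 := by
    by_contra h
    push Not at h
    nlinarith
  have : m = 0 ∨ m = 1 := by omega
  rcases this with rfl | rfl <;> simp

include hN in
theorem Gam_inter (a b a' b' m : ℤ) (w : ℝ × ℝ) (hm : a' + b' - (a + b) = m * N)
    (hne : ¬ (a = a' ∧ b = b')) (h : Gam N a b w) (h' : Gam N a' b' w) :
    Cross N a b a' b' w ∨ Cross N a' b' a b w := by
  unfold Cross
  rcases h with ⟨h1, h2, h3⟩ | ⟨h1, h2, h3⟩ <;> rcases h' with ⟨h4, h5, h6⟩ | ⟨h4, h5, h6⟩
  · exfalso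
    have e1 : a = a' := by exact_mod_cast h1.symm.trans h4
    have e2 : b - N < b' := by
      have : (b : ℝ) - N < b' := by linarith
      exact_mod_cast this
    have e3 : b' - N < b := by
      have : (b' : ℝ) - N < b := by linarith
      exact_mod_cast this
    have := mul_cases hN m (a' + b' - (a + b)) hm (by omega) (by omega)
    omega
  · right
    have e1 : b - N < b' := by
      have : (b : ℝ) - N < b' := by linarith
      exact_mod_cast this
    have e2 : b' ≤ b := by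
      have : (b' : ℝ) ≤ b := by linarith
      exact_mod_cast this
    have e3 : a' ≤ a := by
      have : (a' : ℝ) ≤ a := by linarith
      exact_mod_cast this
    have e4 : a < a' + N := by
      have : (a : ℝ) < a' + N := by linarith
      exact_mod_cast this
    have := mul_cases hN (-m) (a + b - (a' + b')) (by linarith) (by omega) (by omega)
    refine ⟨by omega, h1, h4, by omega, by omega⟩
  · left
    have e1 : b' - N < b := by
      have : (b' : ℝ) - N < b := by linarith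
      exact_mod_cast this
    have e2 : b ≤ b' := by
      have : (b : ℝ) ≤ b' := by linarith
      exact_mod_cast this
    have e3 : a ≤ a' := by
      have : (a : ℝ) ≤ a' := by linarith
      exact_mod_cast this
    have e4 : a' < a + N := by
      have : (a' : ℝ) < a + N := by linarith
      exact_mod_cast this
    have := mul_cases hN m (a' + b' - (a + b)) hm (by omega) (by omega)
    refine ⟨by omega, h4, h1, by omega, by omega⟩
  · exfalso
    have e1 : b = b' := by exact_mod_cast h1.symm.trans h4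
    have e2 : a < a' + N := by
      have : (a : ℝ) < a' + N := by linarith
      exact_mod_cast this
    have e3 : a' < a + N := by
      have : (a' : ℝ) < a + N := by linarith
      exact_mod_cast this
    have := mul_cases hN m (a' + b' - (a + b)) hm (by omega) (by omega)
    omega

/-- The arc in the plane with index `(j, r)`. -/
noncomputable def arc (N : ℕ) (hN : 0 < N) (j r : ℤ) (s : unitInterval) : ℝ × ℝ :=
  E N hN (hook N r (j * N - r) s)

theorem arc_cont (j r : ℤ) : Continuous (arc N hN j r) :=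
  (E_cont hN).comp (hook_cont _ _)

theorem E_time {w w' : ℝ × ℝ} (h : E N hN w = E N hN w') : w.1 + w.2 = w'.1 + w'.2 := by
  obtain ⟨k, h1, h2⟩ := (E_eq_iff hN w w').mp h
  linarith

theorem arc_inj (j r : ℤ) : Function.Injective (arc N hN j r) := by
  intro s t h
  have h1 := E_time hN h
  rw [hook_time, hook_time] at h1
  have h2 : (1 : ℝ) ≤ N := by exact_mod_cast hN
  have h3 : (2 * (s : ℝ) - 1) * (N - 1 / 2) = (2 * (t : ℝ) - 1) * (N - 1 / 2) := by linarith
  have h4 := mul_right_cancel₀ (by linarith : (N : ℝ) - 1 / 2 ≠ 0) h3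
  ext
  linarith

theorem mem_arc (j r : ℤ) (w : ℝ × ℝ) :
    E N hN w ∈ range (arc N hN j r) ↔ ∃ k : ℤ, Gam N (r + k * N) (j * N - r - k * N) w := by
  constructor
  · rintro ⟨s, hs⟩
    obtain ⟨k, h1, h2⟩ := (E_eq_iff hN _ _).mp hs.symm
    exact ⟨k, (Gam_shift _ _ k _ _ h1 h2).mp ((hook_range hN _ _ _).mp ⟨s, rfl⟩)⟩
  · rintro ⟨k, hk⟩
    have := (Gam_shift (N := N) r (j * N - r) k w (w.1 - k * N, w.2 + k * N) (by simp)
      (by simp)).mpr hk
    obtain ⟨s, hs⟩ := (hook_range hN _ _ _).mpr this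
    refine ⟨s, ?_⟩
    unfold arc
    rw [hs]
    symm
    exact (E_eq_iff hN _ _).mpr ⟨k, by simp, by simp⟩

theorem exists_lift {j r : ℤ} {p : ℝ × ℝ} (h : p ∈ range (arc N hN j r)) : ∃ w, E N hN w = p := by
  obtain ⟨s, rfl⟩ := h
  exact ⟨_, rfl⟩

theorem res_eq (hN : 0 < N) {r r' k k' : ℤ} (h0 : 0 ≤ r) (h1 : r < N) (h0' : 0 ≤ r') (h1' : r' < N)
    (h : r + k * N = r' + k' * N) : r = r' ∧ k = k' := by
  have := mul_cases hN (k - k') (r' - r) (by linarith) (by omega) (by omega)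
  have h2 : r' - r = 0 := by omega
  have hN' : (N : ℤ) ≠ 0 := by omega
  refine ⟨by omega, ?_⟩
  have : (k - k') * N = 0 := by linarith
  rcases mul_eq_zero.mp this with h3 | h3
  · omega
  · exact absurd h3 hN'

/-- Two different arcs meet only in a crossing of the standard shape. -/
theorem arc_inter {j r j' r' : ℤ} (h0 : 0 ≤ r) (h1 : r < N) (h0' : 0 ≤ r') (h1' : r' < N)
    (hne : ¬ (j = j' ∧ r = r')) (w : ℝ × ℝ) (h : E N hN w ∈ range (arc N hN j r))
    (h' : E N hN w ∈ range (arc N hN j' r')) :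
    ∃ k k' : ℤ, Cross N (r + k * N) (j * N - r - k * N) (r' + k' * N) (j' * N - r' - k' * N) w ∨
      Cross N (r' + k' * N) (j' * N - r' - k' * N) (r + k * N) (j * N - r - k * N) w := by
  obtain ⟨k, hk⟩ := (mem_arc hN j r w).mp h
  obtain ⟨k', hk'⟩ := (mem_arc hN j' r' w).mp h'
  refine ⟨k, k', Gam_inter hN _ _ _ _ (j' - j) w (by ring) ?_ hk hk'⟩
  rintro ⟨h2, h3⟩
  obtain ⟨h4, h5⟩ := res_eq hN h0 h1 h0' h1' h2
  apply hne
  refine ⟨?_, h4⟩
  subst h4 h5
  have : (j - j') * N = 0 := by linarith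
  rcases mul_eq_zero.mp this with h3 | h3
  · omega
  · omega

theorem Cross_level (hN : 0 < N) {j r j' r' k k' : ℤ} {w : ℝ × ℝ}
    (h : Cross N (r + k * N) (j * N - r - k * N) (r' + k' * N) (j' * N - r' - k' * N) w) :
    j' = j + 1 := by
  have h1 := h.1
  have : (j' - j - 1) * N = 0 := by linarith
  rcases mul_eq_zero.mp this with h3 | h3
  · omega
  · omega

theorem Cross_unique {j r j' r' k k' l l' : ℤ} {w x : ℝ × ℝ}
    (h : Cross N (r + k * N) (j * N - r - k * N) (r' + k' * N) (j' * N - r' - k' * N) w)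
    (h' : Cross N (r + l * N) (j * N - r - l * N) (r' + l' * N) (j' * N - r' - l' * N) x) :
    E N hN w = E N hN x := by
  obtain ⟨-, h2, h3, h4, h5⟩ := h
  obtain ⟨-, g2, g3, g4, g5⟩ := h'
  have := mul_cases hN ((k' - k) - (l' - l)) ((k' * N - k * N) - (l' * N - l * N)) (by ring)
    (by omega) (by omega)
  have h6 : (k' * N - k * N) - (l' * N - l * N) = 0 := by omega
  have h7 : ((k' : ℝ) * N - k * N) - (l' * N - l * N) = 0 := by exact_mod_cast h6
  refine (E_eq_iff hN _ _).mpr ⟨k - l, ?_, ?_⟩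
  · rw [h2, g2]
    push_cast
    linarith
  · rw [h3, g3]
    push_cast
    linarith

theorem arc_inter_subsingleton {j r j' r' : ℤ} (h0 : 0 ≤ r) (h1 : r < N) (h0' : 0 ≤ r')
    (h1' : r' < N) (hne : ¬ (j = j' ∧ r = r')) :
    (range (arc N hN j r) ∩ range (arc N hN j' r')).Subsingleton := by
  rintro p ⟨hp, hp'⟩ q ⟨hq, hq'⟩
  obtain ⟨w, rfl⟩ := exists_lift hN hp
  obtain ⟨x, rfl⟩ := exists_lift hN hq
  obtain ⟨k, k', hk⟩ := arc_inter hN h0 h1 h0' h1' hne w hp hp'
  obtain ⟨l, l', hl⟩ := arc_inter hN h0 h1 h0' h1' hne x hq hq'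
  rcases hk with hk | hk <;> rcases hl with hl | hl
  · exact Cross_unique hN hk hl
  · have := Cross_level hN hk
    have := Cross_level hN hl
    omega
  · have := Cross_level hN hk
    have := Cross_level hN hl
    omega
  · exact Cross_unique hN hk hl

theorem arc_inter_level {j r j' r' : ℤ} (h0 : 0 ≤ r) (h1 : r < N) (h0' : 0 ≤ r')
    (h1' : r' < N) (hne : ¬ (j = j' ∧ r = r')) {p : ℝ × ℝ} (hp : p ∈ range (arc N hN j r))
    (hp' : p ∈ range (arc N hN j' r')) : j' = j + 1 ∨ j = j' + 1 := by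
  obtain ⟨w, rfl⟩ := exists_lift hN hp
  obtain ⟨k, k', hk⟩ := arc_inter hN h0 h1 h0' h1' hne w hp hp'
  rcases hk with hk | hk
  · exact Or.inl (Cross_level hN hk)
  · exact Or.inr (Cross_level hN hk)

theorem arc_inter_int {j r j' r' : ℤ} (h0 : 0 ≤ r) (h1 : r < N) (h0' : 0 ≤ r')
    (h1' : r' < N) (hne : ¬ (j = j' ∧ r = r')) {w : ℝ × ℝ} (hp : E N hN w ∈ range (arc N hN j r))
    (hp' : E N hN w ∈ range (arc N hN j' r')) : ∃ z : ℤ, w.1 + w.2 = z := by
  obtain ⟨k, k', hk⟩ := arc_inter hN h0 h1 h0' h1' hne w hp hp'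
  rcases hk with ⟨-, h2, h3, -⟩ | ⟨-, h2, h3, -⟩
  · exact ⟨_, by rw [h2, h3, ← Int.cast_add]⟩
  · exact ⟨_, by rw [h2, h3, ← Int.cast_add]⟩

/-- An end of an arc lies on no other arc. -/
theorem end_not_mem {j r j' r' : ℤ} (h0 : 0 ≤ r) (h1 : r < N) (h0' : 0 ≤ r')
    (h1' : r' < N) (hne : ¬ (j = j' ∧ r = r')) {s : unitInterval} (hs : s = 0 ∨ s = 1) :
    arc N hN j r s ∉ range (arc N hN j' r') := by
  intro h
  obtain ⟨z, hz⟩ := arc_inter_int hN h0 h1 h0' h1' hne (w := hook N r (j * N - r) s) ⟨s, rfl⟩ h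
  rw [hook_time] at hz
  rcases hs with rfl | rfl
  · have h2 : (2 * (j * N - N - z) + 1 : ℝ) = 0 := by
      push_cast at hz
      simp at hz
      linarith
    have h3 : (2 * (j * N - N - z) + 1 : ℤ) = 0 := by exact_mod_cast h2
    omega
  · have h2 : (2 * (j * N + N - z) - 1 : ℝ) = 0 := by
      push_cast at hz
      simp at hz
      linarith
    have h3 : (2 * (j * N + N - z) - 1 : ℤ) = 0 := by exact_mod_cast h2
    omega

theorem int_near {a b : ℤ} {x : ℝ} (h : x = a) (h' : |x - b| < 1 / 4) : a = b := by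
  rw [h, abs_lt] at h'
  have h1 : (a : ℝ) < b + 1 := by linarith
  have h2 : (b : ℝ) < a + 1 := by linarith
  have h3 : a < b + 1 := by exact_mod_cast h1
  have h4 : b < a + 1 := by exact_mod_cast h2
  omega

theorem Cross_local {j r j' r' k k' : ℤ} {w : ℝ × ℝ}
    (h : Cross N (r + k * N) (j * N - r - k * N) (r' + k' * N) (j' * N - r' - k' * N) w) :
    (∀ x : ℝ × ℝ, |x.1 - w.1| < 1 / 4 → |x.2 - w.2| < 1 / 4 →
      (E N hN x ∈ range (arc N hN j r) ↔ x.2 = w.2)) ∧
    (∀ x : ℝ × ℝ, |x.1 - w.1| < 1 / 4 → |x.2 - w.2| < 1 / 4 →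
      (E N hN x ∈ range (arc N hN j' r') ↔ x.1 = w.1)) := by
  obtain ⟨h1, h2, h3, h4, h5⟩ := h
  have h4' : ((r + k * N : ℤ) : ℝ) + 1 ≤ ((r' + k' * N : ℤ) : ℝ) := by exact_mod_cast h4
  have h5' : ((r' + k' * N : ℤ) : ℝ) + 1 ≤ ((r + k * N : ℤ) : ℝ) + N := by exact_mod_cast h5
  have h1' : ((r' + k' * N : ℤ) : ℝ) + ((j' * N - r' - k' * N : ℤ) : ℝ) =
      ((r + k * N : ℤ) : ℝ) + ((j * N - r - k * N : ℤ) : ℝ) + N := by exact_mod_cast h1
  constructor
  · intro x hx1 hx2
    rw [mem_arc]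
    constructor
    · rintro ⟨l, ⟨g1, g2, g3⟩ | ⟨g1, g2, g3⟩⟩
      · exfalso
        rw [h2] at hx1
        have e := int_near g1 hx1
        have := mul_cases hN (l - k) (l * N - k * N) (by ring) (by omega) (by omega)
        omega
      · rw [h3] at hx2 ⊢
        have e := int_near g1 hx2
        rw [g1, e]
    · intro hx
      refine ⟨k, Or.inr ⟨hx.trans h3, ?_, ?_⟩⟩
      · rw [abs_lt] at hx1
        linarith
      · rw [abs_lt] at hx1
        linarith
  · intro x hx1 hx2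
    rw [mem_arc]
    constructor
    · rintro ⟨l, ⟨g1, g2, g3⟩ | ⟨g1, g2, g3⟩⟩
      · rw [h2] at hx1 ⊢
        have e := int_near g1 hx1
        rw [g1, e]
      · exfalso
        rw [h3] at hx2
        have e := int_near g1 hx2
        have := mul_cases hN (l - k') (l * N - k' * N) (by ring) (by omega) (by omega)
        omega
    · intro hx
      refine ⟨k', Or.inl ⟨hx.trans h2, ?_, ?_⟩⟩
      · rw [abs_lt] at hx2
        linarith
      · rw [abs_lt] at hx2
        linarith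

/-- Two different arcs cross properly at a common point. -/
theorem arc_proper {j r j' r' : ℤ} (h0 : 0 ≤ r) (h1 : r < N) (h0' : 0 ≤ r')
    (h1' : r' < N) (hne : ¬ (j = j' ∧ r = r')) {p : ℝ × ℝ} (hp : p ∈ range (arc N hN j r))
    (hp' : p ∈ range (arc N hN j' r')) :
    ∃ φ : (ℝ × ℝ) ≃ₜ (ℝ × ℝ), φ p = 0 ∧ ∀ q, ‖φ q‖ < 1 →
      ((q ∈ range (arc N hN j r) ↔ (φ q).2 = 0) ∧ (q ∈ range (arc N hN j' r') ↔ (φ q).1 = 0)) := by
  obtain ⟨w, rfl⟩ := exists_lift hN hp
  obtain ⟨k, k', hk⟩ := arc_inter hN h0 h1 h0' h1' hne w hp hp'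
  rcases hk with hk | hk
  · obtain ⟨hA, hB⟩ := Cross_local hN hk
    exact crossing hN w _ _ hA hB
  · obtain ⟨hA, hB⟩ := Cross_local hN hk
    obtain ⟨φ, h2, h3⟩ := crossing hN w _ _ hA hB
    refine ⟨φ.trans (Homeomorph.prodComm ℝ ℝ), ?_, ?_⟩
    · simp [h2]
    · intro q hq
      have hq' : ‖φ q‖ < 1 := by
        simpa [Prod.norm_def, and_comm] using hq
      simpa using (h3 q hq').symm

theorem mem_arc_vert (j a : ℤ) (w : ℝ × ℝ) (h1 : w.1 = a)
    (h2 : (j : ℝ) * N - N + 1 / 2 ≤ w.1 + w.2) (h3 : w.1 + w.2 ≤ j * N) :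
    E N hN w ∈ range (arc N hN j (a % N)) := by
  rw [mem_arc]
  have e : a % N + a / N * N = a := by
    rw [mul_comm]
    exact Int.emod_add_mul_ediv a N
  refine ⟨a / N, Or.inl ⟨?_, ?_, ?_⟩⟩
  · rw [e, h1]
  · rw [sub_sub, e]
    push_cast
    linarith
  · rw [sub_sub, e]
    push_cast
    linarith

theorem mem_arc_hor (j b : ℤ) (w : ℝ × ℝ) (h1 : w.2 = b)
    (h2 : (j : ℝ) * N ≤ w.1 + w.2) (h3 : w.1 + w.2 ≤ j * N + N - 1 / 2) :
    E N hN w ∈ range (arc N hN j ((j * N - b) % N)) := by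
  rw [mem_arc]
  have e : (j * N - b) % N + (j * N - b) / N * N = j * N - b := by
    rw [mul_comm ((j * N - b) / N)]
    exact Int.emod_add_mul_ediv _ N
  refine ⟨(j * N - b) / N, Or.inr ⟨?_, ?_, ?_⟩⟩
  · rw [sub_sub, e, h1]
    simp
  · rw [e]
    push_cast
    linarith
  · rw [e]
    push_cast
    linarith

theorem arc_time {j r : ℤ} {w : ℝ × ℝ} (h : E N hN w ∈ range (arc N hN j r)) :
    w.1 + w.2 ≤ j * N + N := by
  obtain ⟨k, hk⟩ := (mem_arc hN j r w).mp h
  have h2 : (0 : ℝ) ≤ N := by positivity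
  rcases hk with ⟨g1, g2, g3⟩ | ⟨g1, g2, g3⟩
  · push_cast at g1 g2 g3
    linarith
  · push_cast at g1 g2 g3
    linarith

end Pool.Agent.Lib.MP_24d225_co
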