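import Mathlib
import Pool.Agent.Lib.MP_24d225_co.Arcs

/-!
The staircase cycles: their inner and outer sides.
-/

set_option autoImplicit false

namespace Pool.Agent.Lib.MP_24d225_co

open Set Topology

/-- The outer side of the `i`-th staircase, in the cover. -/
def OutC (i : ℤ) : Set (ℝ × ℝ) := {w | ∃ a b : ℤ, a + b = i ∧ (a : ℝ) < w.1 ∧ (b : ℝ) < w.2}

/-- The inner side of the `i`-th staircase, in the cover. -/
def InC (i : ℤ) : Set (ℝ × ℝ) := {w | ∃ a b : ℤ, a + b = i + 1 ∧ w.1 < a ∧ w.2 < b}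

theorem OutC_open (i : ℤ) : IsOpen (OutC i) := by
  have : OutC i = ⋃ a : ℤ, ⋃ b : ℤ, ⋃ (_ : a + b = i),
      ({w : ℝ × ℝ | (a : ℝ) < w.1} ∩ {w : ℝ × ℝ | (b : ℝ) < w.2}) := by
    ext w
    simp only [OutC, mem_iUnion, mem_inter_iff, mem_ofPred_eq, exists_prop]
  rw [this]
  refine isOpen_iUnion fun a => isOpen_iUnion fun b => isOpen_iUnion fun _ => IsOpen.inter ?_ ?_
  · exact isOpen_lt continuous_const continuous_fst
  · exact isOpen_lt continuous_const continuous_snd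

theorem InC_open (i : ℤ) : IsOpen (InC i) := by
  have : InC i = ⋃ a : ℤ, ⋃ b : ℤ, ⋃ (_ : a + b = i + 1),
      ({w : ℝ × ℝ | w.1 < (a : ℝ)} ∩ {w : ℝ × ℝ | w.2 < (b : ℝ)}) := by
    ext w
    simp only [InC, mem_iUnion, mem_inter_iff, mem_ofPred_eq, exists_prop]
  rw [this]
  refine isOpen_iUnion fun a => isOpen_iUnion fun b => isOpen_iUnion fun _ => IsOpen.inter ?_ ?_
  · exact isOpen_lt continuous_fst continuous_const
  · exact isOpen_lt continuous_snd continuous_const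

variable {N : ℕ} (hN : 0 < N)

/-- The outer side of the `i`-th cycle. -/
def Out (N : ℕ) (hN : 0 < N) (i : ℤ) : Set (ℝ × ℝ) := E N hN '' OutC i

/-- The inner side of the `i`-th cycle. -/
def Inn (N : ℕ) (hN : 0 < N) (i : ℤ) : Set (ℝ × ℝ) := disc ∪ E N hN '' InC i

theorem Out_open (i : ℤ) : IsOpen (Out N hN i) := E_open hN _ (OutC_open i)

theorem Inn_open (i : ℤ) : IsOpen (Inn N hN i) := disc_open.union (E_open hN _ (InC_open i))

theorem Inn_Out_disjoint {i : ℤ} (hi : 0 ≤ i) : Disjoint (Inn N hN i) (Out N hN i) := by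
  rw [Set.disjoint_left]
  rintro q hq ⟨w, ⟨a, b, h1, h2, h3⟩, rfl⟩
  rcases hq with hq | ⟨x, ⟨a', b', g1, g2, g3⟩, hx⟩
  · have h4 := E_mem_disc hN w hq
    have h5 : ((a + b : ℤ) : ℝ) < 0 := by
      push_cast
      linarith
    have h6 : a + b < 0 := by exact_mod_cast h5
    omega
  · obtain ⟨k, e1, e2⟩ := (E_eq_iff hN _ _).mp hx
    have h4 : ((a + k * N : ℤ) : ℝ) < a' := by
      push_cast
      linarith
    have h5 : ((b - k * N : ℤ) : ℝ) < b' := by
      push_cast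
      linarith
    have h6 : a + k * N < a' := by exact_mod_cast h4
    have h7 : b - k * N < b' := by exact_mod_cast h5
    omega

theorem stair {i : ℤ} {w : ℝ × ℝ} (h1 : w ∉ InC i) (h2 : w ∉ OutC i) :
    ⌈w.1⌉ + ⌈w.2⌉ ≤ i + 1 ∧ i ≤ ⌊w.1⌋ + ⌊w.2⌋ := by
  constructor
  · by_contra h
    push Not at h
    apply h2
    refine ⟨⌈w.1⌉ - 1, i - (⌈w.1⌉ - 1), by ring, ?_, ?_⟩
    · have := Int.ceil_lt_add_one w.1
      push_cast
      linarith
    · rw [← Int.lt_ceil]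
      omega
  · by_contra h
    push Not at h
    apply h1
    refine ⟨⌊w.1⌋ + 1, i - ⌊w.1⌋, by ring, ?_, ?_⟩
    · have := Int.lt_floor_add_one w.1
      push_cast
      linarith
    · rw [← Int.floor_lt]
      omega

theorem eq_floor_of {x : ℝ} (h : ⌈x⌉ ≤ ⌊x⌋) : x = (⌊x⌋ : ℤ) := by
  have h1 := Int.le_ceil x
  have h2 := Int.floor_le x
  have h3 : ((⌈x⌉ : ℤ) : ℝ) ≤ (⌊x⌋ : ℤ) := by exact_mod_cast h
  linarith

theorem on_cycle {i : ℤ} {q : ℝ × ℝ} (h1 : q ∉ Inn N hN i) (h2 : q ∉ Out N hN i) :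
    ∃ w, E N hN w = q := by
  apply E_surj
  rintro rfl
  exact h1 (Or.inl zero_mem_disc)

theorem on_cycle_stair {i : ℤ} {w : ℝ × ℝ} (h1 : E N hN w ∉ Inn N hN i)
    (h2 : E N hN w ∉ Out N hN i) : ⌈w.1⌉ + ⌈w.2⌉ ≤ i + 1 ∧ i ≤ ⌊w.1⌋ + ⌊w.2⌋ :=
  stair (fun h => h1 (Or.inr ⟨w, h, rfl⟩)) (fun h => h2 ⟨w, h, rfl⟩)

theorem stair_time {i : ℤ} {w : ℝ × ℝ} (h : ⌈w.1⌉ + ⌈w.2⌉ ≤ i + 1 ∧ i ≤ ⌊w.1⌋ + ⌊w.2⌋) :
    (i : ℝ) ≤ w.1 + w.2 ∧ w.1 + w.2 ≤ i + 1 := by
  obtain ⟨h1, h2⟩ := h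
  have h3 : ((⌈w.1⌉ + ⌈w.2⌉ : ℤ) : ℝ) ≤ ((i + 1 : ℤ) : ℝ) := by exact_mod_cast h1
  have h4 : (i : ℝ) ≤ ((⌊w.1⌋ + ⌊w.2⌋ : ℤ) : ℝ) := by exact_mod_cast h2
  push_cast at h3 h4
  have := Int.le_ceil w.1
  have := Int.le_ceil w.2
  have := Int.floor_le w.1
  have := Int.floor_le w.2
  constructor <;> linarith

/-- A good cycle is contained in the arcs of two consecutive generations. -/
theorem cycle_sub {i j : ℤ} (hi1 : j * N + 1 ≤ i) (hi2 : i + 2 ≤ j * N + N) {q : ℝ × ℝ}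
    (h1 : q ∉ Inn N hN i) (h2 : q ∉ Out N hN i) :
    ∃ r : ℤ, 0 ≤ r ∧ r < N ∧ (q ∈ range (arc N hN j r) ∨ q ∈ range (arc N hN (j + 1) r)) := by
  obtain ⟨w, rfl⟩ := on_cycle hN h1 h2
  have hs := on_cycle_stair hN h1 h2
  obtain ⟨t1, t2⟩ := stair_time hs
  have hN' : (0 : ℤ) < N := by exact_mod_cast hN
  have g1 : ((j * N + 1 : ℤ) : ℝ) ≤ i := by exact_mod_cast hi1
  have g2 : ((i + 2 : ℤ) : ℝ) ≤ ((j * N + N : ℤ) : ℝ) := by exact_mod_cast hi2
  push_cast at g1 g2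
  have f1 := Int.floor_le_ceil w.1
  have f2 := Int.floor_le_ceil w.2
  by_cases hc : ⌈w.1⌉ ≤ ⌊w.1⌋
  · refine ⟨_, Int.emod_nonneg _ hN'.ne', Int.emod_lt_of_pos _ hN', Or.inr
      (mem_arc_vert hN (j + 1) _ w (eq_floor_of hc) ?_ ?_)⟩
    · push_cast
      linarith
    · push_cast
      linarith
  · have hc' : ⌈w.2⌉ ≤ ⌊w.2⌋ := by omega
    refine ⟨_, Int.emod_nonneg _ hN'.ne', Int.emod_lt_of_pos _ hN', Or.inl
      (mem_arc_hor hN j _ w (eq_floor_of hc') ?_ ?_)⟩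
    · linarith
    · linarith

/-- A point on two cycles, one of them good, lies on arcs of two different generations. -/
theorem two_cycles {i i' j : ℤ} (hi1 : j * N + 1 ≤ i) (hi2 : i + 2 ≤ j * N + N) (hne : i ≠ i')
    {q : ℝ × ℝ} (h1 : q ∉ Inn N hN i) (h2 : q ∉ Out N hN i) (h1' : q ∉ Inn N hN i')
    (h2' : q ∉ Out N hN i') :
    ∃ r r' : ℤ, 0 ≤ r ∧ r < N ∧ 0 ≤ r' ∧ r' < N ∧
      q ∈ range (arc N hN j r) ∧ q ∈ range (arc N hN (j + 1) r') := by
  obtain ⟨w, rfl⟩ := on_cycle hN h1 h2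
  have hs := on_cycle_stair hN h1 h2
  have hs' := on_cycle_stair hN h1' h2'
  obtain ⟨t1, t2⟩ := stair_time hs
  have hN' : (0 : ℤ) < N := by exact_mod_cast hN
  have g1 : ((j * N + 1 : ℤ) : ℝ) ≤ i := by exact_mod_cast hi1
  have g2 : ((i + 2 : ℤ) : ℝ) ≤ ((j * N + N : ℤ) : ℝ) := by exact_mod_cast hi2
  push_cast at g1 g2
  have f1 := Int.floor_le_ceil w.1
  have f2 := Int.floor_le_ceil w.2
  have hc : ⌈w.1⌉ ≤ ⌊w.1⌋ := by omega
  have hc' : ⌈w.2⌉ ≤ ⌊w.2⌋ := by omega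
  refine ⟨_, _, Int.emod_nonneg _ hN'.ne', Int.emod_lt_of_pos _ hN', Int.emod_nonneg _ hN'.ne',
    Int.emod_lt_of_pos _ hN', mem_arc_hor hN j _ w (eq_floor_of hc') ?_ ?_,
    mem_arc_vert hN (j + 1) _ w (eq_floor_of hc) ?_ ?_⟩
  · linarith
  · linarith
  · push_cast
    linarith
  · push_cast
    linarith

/-- The counting argument: a chain of connected sets from the inside of all cycles to the outside
of all cycles, in which consecutive sets touch at a point lying on at most one cycle, is at least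
as long as the number of cycles. -/
theorem chain_bound {X ι : Type} [TopologicalSpace X] [Fintype ι] (A B : ι → Set X)
    (hA : ∀ x, IsOpen (A x)) (hB : ∀ x, IsOpen (B x)) (hAB : ∀ x, Disjoint (A x) (B x))
    (n : ℕ) (f : ℕ → Set X) (hf : ∀ i ≤ n, IsPreconnected (f i))
    (hsub : ∀ i ≤ n, ∀ x, f i ⊆ A x ∪ B x)
    (h0 : ∀ x, (f 0 ∩ A x).Nonempty) (hn : ∀ x, (f n ∩ B x).Nonempty)
    (hstep : ∀ i < n, f i = f (i + 1) ∨ ∃ p ∈ closure (f i) ∩ closure (f (i + 1)),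
      ∀ x y, p ∉ A x ∪ B x → p ∉ A y ∪ B y → x = y) :
    Fintype.card ι ≤ n := by
  classical
  have hin : ∀ i ≤ n, ∀ x, (f i ∩ B x).Nonempty → f i ⊆ B x := by
    intro i hi x hx
    refine (hf i hi).subset_right_of_subset_union (hA x) (hB x) (hAB x) (hsub i hi x) hx
  have key : ∀ i ≤ n, (Finset.univ.filter fun x => f i ⊆ B x).card ≤ i := by
    intro i
    induction i with
    | zero =>
      intro _
      rw [Nat.le_zero, Finset.card_eq_zero, Finset.filter_eq_empty_iff]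
      intro x _ hx
      obtain ⟨z, hz1, hz2⟩ := h0 x
      exact Set.disjoint_left.mp (hAB x) hz2 (hx hz1)
    | succ i ih =>
      intro hi
      have ih' := ih (by omega)
      rcases hstep i (by omega) with h | ⟨p, ⟨hp1, hp2⟩, hp⟩
      · rw [← h]
        omega
      · have h1 : (Finset.univ.filter fun x => p ∉ A x ∪ B x).card ≤ 1 := by
          rw [Finset.card_le_one]
          intro x hx y hy
          exact hp x y (Finset.mem_filter.mp hx).2 (Finset.mem_filter.mp hy).2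
        have h2 : (Finset.univ.filter fun x => f (i + 1) ⊆ B x) ⊆
            (Finset.univ.filter fun x => f i ⊆ B x) ∪
              (Finset.univ.filter fun x => p ∉ A x ∪ B x) := by
          intro x hx
          have hx' := (Finset.mem_filter.mp hx).2
          rw [Finset.mem_union, Finset.mem_filter, Finset.mem_filter]
          by_cases hpx : p ∈ A x ∪ B x
          · left
            refine ⟨Finset.mem_univ _, ?_⟩
            rcases hpx with hpx | hpx
            · exfalso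
              obtain ⟨z, hz1, hz2⟩ := mem_closure_iff.mp hp2 _ (hA x) hpx
              exact Set.disjoint_left.mp (hAB x) hz1 (hx' hz2)
            · obtain ⟨z, hz1, hz2⟩ := mem_closure_iff.mp hp1 _ (hB x) hpx
              exact hin i (by omega) x ⟨z, hz2, hz1⟩
          · exact Or.inr ⟨Finset.mem_univ _, hpx⟩
        have h3 := Finset.card_le_card h2
        have h4 := Finset.card_union_le (Finset.univ.filter fun x => f i ⊆ B x)
          (Finset.univ.filter fun x => p ∉ A x ∪ B x)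
        omega
  have h5 := key n le_rfl
  have h6 : (Finset.univ.filter fun x => f n ⊆ B x) = Finset.univ := by
    rw [Finset.filter_eq_self]
    intro x _
    exact hin n le_rfl x (hn x)
  rwa [h6, Finset.card_univ] at h5

end Pool.Agent.Lib.MP_24d225_co
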