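import Mathlib
import Pool.Agent.Lib.MP_24d225_co.Cycles

/-!
The drawing: a perfect matching with `N * N` edges, whose planarization has two faces at dual
distance at least `(N - 1) * (N - 2)`.
-/

set_option autoImplicit false

namespace Pool.Agent.Lib.MP_24d225_co

open Set Topology

/-- The vertices. -/
abbrev Vx (N : ℕ) : Type := (Fin N × Fin N) × Bool

/-- The graph, a perfect matching. -/
def Gr (N : ℕ) : SimpleGraph (Vx N) where
  Adj u v := u.1 = v.1 ∧ u.2 ≠ v.2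
  symm := ⟨fun _ _ h => ⟨h.1.symm, h.2.symm⟩⟩
  loopless := ⟨fun _ h => h.2 rfl⟩

/-- The arc of the edge with index `e`. -/
noncomputable def ar (N : ℕ) (hN : 0 < N) (e : Fin N × Fin N) : unitInterval → ℝ × ℝ :=
  arc N hN ((e.1 : ℕ) : ℤ) ((e.2 : ℕ) : ℤ)

/-- The positions of the vertices. -/
noncomputable def ps (N : ℕ) (hN : 0 < N) (u : Vx N) : ℝ × ℝ :=
  ar N hN u.1 (if u.2 then 1 else 0)

/-- The parametrised edges. -/
noncomputable def gam (N : ℕ) (hN : 0 < N) (u _v : Vx N) (s : unitInterval) : ℝ × ℝ :=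
  ar N hN u.1 (if u.2 then unitInterval.symm s else s)

/-- The point set of the drawing. -/
def drawing (N : ℕ) (hN : 0 < N) : Set (ℝ × ℝ) :=
  Set.range (ps N hN) ∪ ⋃ u, ⋃ v, ⋃ (_ : (Gr N).Adj u v), Set.range (gam N hN u v)

variable {N : ℕ} (hN : 0 < N)

theorem range_gam (u v : Vx N) : range (gam N hN u v) = range (ar N hN u.1) := by
  unfold gam
  rcases u with ⟨e, b⟩
  cases b
  · simp
  · simp only [if_true]
    exact unitInterval.symm_bijective.surjective.range_comp (ar N hN e)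

theorem idx_ne {e e' : Fin N × Fin N} (h : e ≠ e') :
    ¬ ((((e.1 : ℕ) : ℤ) = ((e'.1 : ℕ) : ℤ)) ∧ (((e.2 : ℕ) : ℤ) = ((e'.2 : ℕ) : ℤ))) := by
  rintro ⟨h1, h2⟩
  apply h
  ext
  · exact_mod_cast h1
  · exact_mod_cast h2

theorem idx0 (r : Fin N) : (0 : ℤ) ≤ ((r : ℕ) : ℤ) := by positivity

theorem idx1 (r : Fin N) : ((r : ℕ) : ℤ) < N := by exact_mod_cast r.2

theorem ps_mem (w : Vx N) (e : Fin N × Fin N) (h : ps N hN w ∈ range (ar N hN e)) : w.1 = e := by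
  by_contra hne
  refine end_not_mem hN (idx0 _) (idx1 _) (idx0 _) (idx1 _) (idx_ne hne)
    (s := if w.2 then 1 else 0) ?_ h
  cases w.2 <;> simp

theorem ps_inj : Function.Injective (ps N hN) := by
  rintro ⟨e, b⟩ ⟨e', b'⟩ h
  have h1 : e = e' := ps_mem hN (e, b) e' (by
    rw [h]
    exact ⟨_, rfl⟩)
  subst h1
  have h2 := arc_inj hN _ _ h
  cases b <;> cases b' <;> simp_all

theorem edge_ok (u v : Vx N) (h : (Gr N).Adj u v) :
    Continuous (gam N hN u v) ∧ Function.Injective (gam N hN u v) ∧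
      gam N hN u v 0 = ps N hN u ∧ gam N hN u v 1 = ps N hN v ∧
      Set.range (gam N hN u v) = Set.range (gam N hN v u) ∧
      ∀ w, ps N hN w ∈ Set.range (gam N hN u v) → w = u ∨ w = v := by
  rcases u with ⟨e, b⟩
  rcases v with ⟨e', b'⟩
  obtain ⟨h1, h2⟩ := h
  simp only [] at h1 h2
  subst h1
  refine ⟨?_, ?_, ?_, ?_, ?_, ?_⟩
  · unfold gam
    cases b
    · exact arc_cont hN _ _
    · exact (arc_cont hN _ _).comp unitInterval.continuous_symm
  · unfold gam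
    cases b
    · exact arc_inj hN _ _
    · exact (arc_inj hN _ _).comp unitInterval.symm_bijective.injective
  · unfold gam ps
    cases b <;> simp
  · unfold gam ps
    cases b <;> cases b' <;> simp_all
  · rw [range_gam, range_gam]
  · rintro ⟨e', b''⟩ hw
    rw [range_gam] at hw
    have := ps_mem hN _ _ hw
    simp only [] at this
    subst this
    cases b <;> cases b' <;> cases b'' <;> simp_all

theorem fst_ne {u v x y : Vx N} (h : (Gr N).Adj u v) (h' : (Gr N).Adj x y)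
    (hne : s(u, v) ≠ s(x, y)) : u.1 ≠ x.1 := by
  intro he
  apply hne
  rcases u with ⟨e1, b1⟩
  rcases v with ⟨e2, b2⟩
  rcases x with ⟨e3, b3⟩
  rcases y with ⟨e4, b4⟩
  obtain ⟨h1, h2⟩ := h
  obtain ⟨h3, h4⟩ := h'
  simp only [] at h1 h2 h3 h4 he
  subst h1 h3 he
  cases b1 <;> cases b2 <;> cases b3 <;> cases b4 <;> simp_all

theorem fst_eq {u v x y : Vx N} (h : (Gr N).Adj u v) (he : s(x, y) = s(u, v)) : x.1 = u.1 := by
  rcases Sym2.eq_iff.mp he with ⟨h1, -⟩ | ⟨h1, -⟩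
  · rw [h1]
  · rw [h1, h.1]

theorem pair_ok (u v x y : Vx N) (h : (Gr N).Adj u v) (h' : (Gr N).Adj x y)
    (hne : s(u, v) ≠ s(x, y)) :
    (Set.range (gam N hN u v) ∩ Set.range (gam N hN x y)).Subsingleton ∧
      ∀ p ∈ Set.range (gam N hN u v) ∩ Set.range (gam N hN x y),
        (∃ w, ps N hN w = p) ∨
        ((∀ w, ps N hN w ≠ p) ∧
          ∃ φ : (ℝ × ℝ) ≃ₜ (ℝ × ℝ), φ p = 0 ∧
            ∀ q, ‖φ q‖ < 1 →
              ((q ∈ Set.range (gam N hN u v) ↔ (φ q).2 = 0) ∧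
               (q ∈ Set.range (gam N hN x y) ↔ (φ q).1 = 0))) := by
  have h1 := fst_ne h h' hne
  rw [range_gam, range_gam]
  refine ⟨arc_inter_subsingleton hN (idx0 _) (idx1 _) (idx0 _) (idx1 _) (idx_ne h1), ?_⟩
  rintro p ⟨hp, hp'⟩
  right
  refine ⟨?_, arc_proper hN (idx0 _) (idx1 _) (idx0 _) (idx1 _) (idx_ne h1) hp hp'⟩
  rintro w rfl
  exact h1 ((ps_mem hN _ _ hp).symm.trans (ps_mem hN _ _ hp'))

theorem triple_ok (u₁ v₁ u₂ v₂ u₃ v₃ : Vx N) (h1 : (Gr N).Adj u₁ v₁) (h2 : (Gr N).Adj u₂ v₂)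
    (h3 : (Gr N).Adj u₃ v₃) (n12 : s(u₁, v₁) ≠ s(u₂, v₂)) (n13 : s(u₁, v₁) ≠ s(u₃, v₃))
    (n23 : s(u₂, v₂) ≠ s(u₃, v₃)) (p : ℝ × ℝ) (p1 : p ∈ Set.range (gam N hN u₁ v₁))
    (p2 : p ∈ Set.range (gam N hN u₂ v₂)) (p3 : p ∈ Set.range (gam N hN u₃ v₃)) :
    ∃ w, ps N hN w = p := by
  exfalso
  rw [range_gam] at p1 p2 p3
  have a := arc_inter_level hN (idx0 _) (idx1 _) (idx0 _) (idx1 _)
    (idx_ne (fst_ne h1 h2 n12)) p1 p2
  have b := arc_inter_level hN (idx0 _) (idx1 _) (idx0 _) (idx1 _)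
    (idx_ne (fst_ne h1 h3 n13)) p1 p3
  have c := arc_inter_level hN (idx0 _) (idx1 _) (idx0 _) (idx1 _)
    (idx_ne (fst_ne h2 h3 n23)) p2 p3
  omega

theorem mem_drawing (q : ℝ × ℝ) : q ∈ drawing N hN ↔ ∃ e, q ∈ range (ar N hN e) := by
  unfold drawing
  simp only [mem_union, mem_iUnion, range_gam, exists_prop]
  constructor
  · rintro (⟨w, rfl⟩ | ⟨u, v, -, h⟩)
    · exact ⟨w.1, _, rfl⟩
    · exact ⟨_, h⟩
  · rintro ⟨e, h⟩
    exact Or.inr ⟨(e, false), (e, true), ⟨rfl, by simp⟩, h⟩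

theorem zero_not_mem : (0 : ℝ × ℝ) ∉ drawing N hN := by
  rw [mem_drawing]
  rintro ⟨e, s, hs⟩
  exact E_ne_zero hN _ hs

/-- A point far outside. -/
noncomputable def far (N : ℕ) (hN : 0 < N) : ℝ × ℝ := E N hN (1, (N : ℝ) * N)

theorem far_not_mem : far N hN ∉ drawing N hN := by
  rw [mem_drawing]
  rintro ⟨e, h⟩
  have h1 := arc_time hN h
  have h2 : ((e.1 : ℕ) : ℝ) + 1 ≤ N := by exact_mod_cast e.1.2
  have h3 : (0 : ℝ) ≤ N := by positivity
  push_cast at h1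
  nlinarith

theorem edge_count (N : ℕ) : (Gr N).edgeSet.ncard ≤ N * N := by
  have h1 : (Gr N).edgeSet ⊆
      (fun e : Fin N × Fin N => s((e, false), (e, true))) '' (univ : Set (Fin N × Fin N)) := by
    intro z hz
    induction z using Sym2.ind with
    | _ u v =>
      rcases u with ⟨e, b⟩
      rcases v with ⟨e', b'⟩
      obtain ⟨h1, h2⟩ := hz
      simp only [] at h1 h2
      subst h1
      refine ⟨e, mem_univ _, ?_⟩
      cases b <;> cases b' <;> simp_all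
  refine (Set.ncard_le_ncard h1 (Set.toFinite _)).trans ((Set.ncard_image_le).trans ?_)
  simp [Set.ncard_univ]

/-- The level of the cycle with index `x`. -/
def lev (N : ℕ) (x : Fin (N - 1) × Fin (N - 2)) : ℤ := ((x.1 : ℕ) : ℤ) * N + ((x.2 : ℕ) : ℤ) + 1

theorem lev_lo (x : Fin (N - 1) × Fin (N - 2)) : ((x.1 : ℕ) : ℤ) * N + 1 ≤ lev N x := by
  unfold lev
  omega

theorem lev_hi (x : Fin (N - 1) × Fin (N - 2)) : lev N x + 2 ≤ ((x.1 : ℕ) : ℤ) * N + N := by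
  unfold lev
  have := x.2.2
  omega

theorem lev_nonneg (x : Fin (N - 1) × Fin (N - 2)) : 0 ≤ lev N x := by
  unfold lev
  positivity

include hN in
theorem lev_inj {x y : Fin (N - 1) × Fin (N - 2)} (h : lev N x = lev N y) : x = y := by
  unfold lev at h
  have h1 := x.2.2
  have h2 := y.2.2
  obtain ⟨h3, h4⟩ := res_eq hN (r := ((x.2 : ℕ) : ℤ)) (r' := ((y.2 : ℕ) : ℤ))
    (k := ((x.1 : ℕ) : ℤ)) (k' := ((y.1 : ℕ) : ℤ)) (by positivity) (by omega) (by positivity)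
    (by omega) (by omega)
  ext
  · exact_mod_cast h4
  · exact_mod_cast h3

theorem arc_eq_ar {j r : ℤ} (j0 : 0 ≤ j) (j1 : j < N) (r0 : 0 ≤ r) (r1 : r < N) :
    ∃ e : Fin N × Fin N, ((e.1 : ℕ) : ℤ) = j ∧ ar N hN e = arc N hN j r := by
  refine ⟨(⟨j.toNat, by omega⟩, ⟨r.toNat, by omega⟩), ?_, ?_⟩
  · simp only []
    omega
  · unfold ar
    simp only []
    rw [Int.toNat_of_nonneg j0, Int.toNat_of_nonneg r0]

theorem compl_sub (x : Fin (N - 1) × Fin (N - 2)) :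
    (drawing N hN)ᶜ ⊆ Inn N hN (lev N x) ∪ Out N hN (lev N x) := by
  intro q hq
  by_contra h
  rw [mem_union, not_or] at h
  apply hq
  rw [mem_drawing]
  have hx := x.1.2
  obtain ⟨r, r0, r1, hr | hr⟩ := cycle_sub hN (lev_lo x) (lev_hi x) h.1 h.2
  · obtain ⟨e, -, he⟩ := arc_eq_ar hN (j := ((x.1 : ℕ) : ℤ)) (by omega) (by omega) r0 r1
    exact ⟨e, he ▸ hr⟩
  · obtain ⟨e, -, he⟩ := arc_eq_ar hN (j := ((x.1 : ℕ) : ℤ) + 1) (by omega) (by omega) r0 r1
    exact ⟨e, he ▸ hr⟩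

theorem chain_long (n : ℕ) (f : ℕ → Set (ℝ × ℝ))
    (h0 : f 0 = connectedComponentIn (drawing N hN)ᶜ 0)
    (hn : f n = connectedComponentIn (drawing N hN)ᶜ (far N hN))
    (hf : ∀ i ≤ n, ∃ z, z ∉ drawing N hN ∧ f i = connectedComponentIn (drawing N hN)ᶜ z)
    (hstep : ∀ i < n, f i = f (i + 1) ∨
      ∃ p ∈ closure (f i) ∩ closure (f (i + 1)),
        p ∉ Set.range (ps N hN) ∧
        ∃ u v, (Gr N).Adj u v ∧ p ∈ Set.range (gam N hN u v) ∧
          ∀ x y, (Gr N).Adj x y → p ∈ Set.range (gam N hN x y) → s(x, y) = s(u, v)) :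
    (N - 1) * (N - 2) ≤ n := by
  have := chain_bound (fun x => Inn N hN (lev N x)) (fun x => Out N hN (lev N x))
    (fun x => Inn_open hN _) (fun x => Out_open hN _)
    (fun x => Inn_Out_disjoint hN (lev_nonneg x)) n f ?_ ?_ ?_ ?_ ?_
  · simpa using this
  · intro i hi
    obtain ⟨z, -, hz⟩ := hf i hi
    rw [hz]
    exact isPreconnected_connectedComponentIn
  · intro i hi x
    obtain ⟨z, -, hz⟩ := hf i hi
    rw [hz]
    exact (connectedComponentIn_subset _ _).trans (compl_sub hN x)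
  · intro x
    rw [h0]
    exact ⟨0, mem_connectedComponentIn (zero_not_mem hN), Or.inl zero_mem_disc⟩
  · intro x
    rw [hn]
    refine ⟨far N hN, mem_connectedComponentIn (far_not_mem hN), _, ⟨0, lev N x, by simp, by simp,
      ?_⟩, rfl⟩
    have h1 := lev_hi x
    have h2 : ((x.1 : ℕ) : ℤ) + 1 ≤ N := by
      have := x.1.2
      omega
    have h3 : lev N x < (N : ℤ) * N := by nlinarith
    change ((lev N x : ℤ) : ℝ) < (N : ℝ) * N
    exact_mod_cast h3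
  · intro i hi
    rcases hstep i hi with h | ⟨p, hp, -, u, v, huv, -, huniq⟩
    · exact Or.inl h
    · refine Or.inr ⟨p, hp, ?_⟩
      intro x y hx hy
      by_contra hne
      rw [mem_union, not_or] at hx hy
      obtain ⟨r, r', r0, r1, r0', r1', a1, a2⟩ := two_cycles hN (lev_lo x) (lev_hi x)
        (fun h => hne (lev_inj hN h)) hx.1 hx.2 hy.1 hy.2
      have hx1 := x.1.2
      obtain ⟨e, he1, he⟩ := arc_eq_ar hN (j := ((x.1 : ℕ) : ℤ)) (by omega) (by omega) r0 r1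
      obtain ⟨e', he1', he'⟩ := arc_eq_ar hN (j := ((x.1 : ℕ) : ℤ) + 1) (by omega) (by omega)
        r0' r1'
      have b1 := fst_eq huv (huniq (e, false) (e, true) ⟨rfl, by simp⟩ (by
        rw [range_gam, he]
        exact a1))
      have b2 := fst_eq huv (huniq (e', false) (e', true) ⟨rfl, by simp⟩ (by
        rw [range_gam, he']
        exact a2))
      have b3 : e = e' := b1.trans b2.symm
      subst b3
      omega

theorem exists_size (c : ℝ) (hc : c < 1) : ∃ M : ℕ, 3 ≤ M ∧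
    ∀ n m : ℕ, (M - 1) * (M - 2) ≤ n → m ≤ M * M → ¬ ((n : ℝ) ≤ c * (m : ℝ)) := by
  obtain ⟨K, hK⟩ := exists_nat_gt (3 / (1 - c))
  refine ⟨K + 3, by omega, ?_⟩
  intro n m h1 h2 h3
  have h4 : (K + 2) * (K + 1) ≤ n := h1
  have h5 : ((K : ℝ) + 2) * (K + 1) ≤ n := by exact_mod_cast h4
  have h6 : (m : ℝ) ≤ (K + 3) * (K + 3) := by exact_mod_cast h2
  have h7 : (0 : ℝ) ≤ m := by positivity
  have h8 : (0 : ℝ) ≤ K := by positivity
  rw [div_lt_iff₀ (by linarith)] at hK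
  rcases le_total c 0 with h | h
  · nlinarith
  · have h9 : c * (m : ℝ) ≤ c * ((K + 3) * (K + 3)) := mul_le_mul_of_nonneg_left h6 h
    nlinarith

end Pool.Agent.Lib.MP_24d225_co
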