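import Mathlib
import Pool.Agent.Lib.MP_24d225_co.Drawing

/-!
Faces and sides of the drawing: finitely many faces, neighbouring unit squares of the cover lie in
equal or adjacent faces, and a side that touches a face lies on its boundary.
-/

set_option autoImplicit false

namespace Pool.Agent.Lib.MP_24d225_co

open Set Topology

/-- A preconnected set off `S` that meets a component of the complement lies in it. -/
theorem sub_comp {X : Type} [TopologicalSpace X] {S W : Set X} {z x : X} (hW : IsPreconnected W)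
    (hS : W ⊆ Sᶜ) (hx : x ∈ W) (hz : x ∈ connectedComponentIn Sᶜ z) :
    W ⊆ connectedComponentIn Sᶜ z := by
  rw [connectedComponentIn_eq hz]
  exact hW.subset_connectedComponentIn hx hS

/-- The clopen argument along a side. -/
theorem side_general {X : Type} [TopologicalSpace X] {S T : Set X}
    (hloc : ∀ p ∈ T, ∃ U W₁ W₂ : Set X, IsOpen U ∧ p ∈ U ∧ IsPreconnected W₁ ∧ IsPreconnected W₂ ∧
      W₁ ⊆ Sᶜ ∧ W₂ ⊆ Sᶜ ∧ U ∩ Sᶜ ⊆ W₁ ∪ W₂ ∧ U ∩ T ⊆ closure W₁ ∧ U ∩ T ⊆ closure W₂)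
    {z p : X} (hp : p ∈ T) (hc : p ∈ closure (connectedComponentIn Sᶜ z)) :
    connectedComponentIn T p ⊆ closure (connectedComponentIn Sᶜ z) := by
  set A := closure (connectedComponentIn Sᶜ z) with hA
  let O : Set X := ⋃₀ {U | IsOpen U ∧ U ∩ T ⊆ A}
  have hO : IsOpen O := isOpen_sUnion fun U hU => hU.1
  have hOT : ∀ x ∈ O, x ∈ T → x ∈ A := by
    rintro x ⟨U, hU, hx⟩ hT
    exact hU.2 ⟨hx, hT⟩
  have hAO : ∀ x ∈ T, x ∈ A → x ∈ O := by
    intro x hx hxA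
    obtain ⟨U, W₁, W₂, h1, h2, h3, h4, h5, h6, h7, h8, h9⟩ := hloc x hx
    refine ⟨U, ⟨h1, ?_⟩, h2⟩
    obtain ⟨y, hy1, hy2⟩ := mem_closure_iff.mp hxA U h1 h2
    rcases h7 ⟨hy1, connectedComponentIn_subset _ _ hy2⟩ with h | h
    · exact h8.trans (closure_mono (sub_comp h3 h5 h hy2))
    · exact h9.trans (closure_mono (sub_comp h4 h6 h hy2))
  intro q hq
  by_contra hqA
  have hpre : IsPreconnected (connectedComponentIn T p) := isPreconnected_connectedComponentIn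
  obtain ⟨x, hx1, hx2, hx3⟩ := hpre O Aᶜ hO isClosed_closure.isOpen_compl
    (fun x hx => by
      by_cases h : x ∈ A
      · exact Or.inl (hAO x (connectedComponentIn_subset _ _ hx) h)
      · exact Or.inr h)
    ⟨p, mem_connectedComponentIn hp, hAO p hp hc⟩ ⟨q, hq, hqA⟩
  exact hx3 (hOT x hx2 (connectedComponentIn_subset _ _ hx1))

/-- The vertices and the crossing points of the drawing. -/
def Nd (N : ℕ) (hN : 0 < N) : Set (ℝ × ℝ) :=
  range (ps N hN) ∪ {p | ∃ e e' : Fin N × Fin N, e ≠ e' ∧ p ∈ range (ar N hN e) ∧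
    p ∈ range (ar N hN e')}

variable {N : ℕ} (hN : 0 < N)

theorem ar_closed (e : Fin N × Fin N) : IsClosed (range (ar N hN e)) :=
  (isCompact_range (arc_cont hN _ _)).isClosed

theorem drawing_eq : drawing N hN = ⋃ e, range (ar N hN e) := by
  ext q
  rw [mem_drawing, mem_iUnion]

theorem drawing_closed : IsClosed (drawing N hN) := by
  rw [drawing_eq]
  exact isClosed_iUnion_of_finite (ar_closed hN)

/-- A point of a hook that is mapped to no vertex is not an end of the hook. -/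
theorem not_end (e : Fin N × Fin N) (k : ℤ) (w : ℝ × ℝ)
    (hw : Gam N (((e.2 : ℕ) : ℤ) + k * N) (((e.1 : ℕ) : ℤ) * N - ((e.2 : ℕ) : ℤ) - k * N) w)
    (hv : E N hN w ∉ range (ps N hN)) :
    (((((e.1 : ℕ) : ℤ) * N - ((e.2 : ℕ) : ℤ) - k * N : ℤ) : ℝ) - N + 1 / 2 < w.2) ∧
      w.1 < (((((e.2 : ℕ) : ℤ) + k * N : ℤ) : ℝ) + N - 1 / 2) := by
  have h1 : (1 : ℝ) ≤ N := by exact_mod_cast hN
  rcases hw with ⟨g1, g2, g3⟩ | ⟨g1, g2, g3⟩
  · refine ⟨lt_of_le_of_ne g2 ?_, by linarith⟩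
    intro h
    apply hv
    refine ⟨(e, false), ?_⟩
    unfold ps ar arc
    symm
    refine (E_eq_iff hN _ _).mpr ⟨k, ?_, ?_⟩
    · rw [g1]
      unfold hook
      simp only [Bool.false_eq_true, if_false, Set.Icc.coe_zero]
      rw [max_eq_right (by linarith)]
      push_cast
      ring
    · rw [← h]
      unfold hook
      simp only [Bool.false_eq_true, if_false, Set.Icc.coe_zero]
      rw [min_eq_left (by linarith)]
      push_cast
      ring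
  · refine ⟨by linarith, lt_of_le_of_ne g3 ?_⟩
    intro h
    apply hv
    refine ⟨(e, true), ?_⟩
    unfold ps ar arc
    symm
    refine (E_eq_iff hN _ _).mpr ⟨k, ?_, ?_⟩
    · rw [h]
      unfold hook
      simp only [if_true, Set.Icc.coe_one]
      rw [max_eq_left (by linarith)]
      push_cast
      ring
    · rw [g1]
      unfold hook
      simp only [if_true, Set.Icc.coe_one]
      rw [min_eq_right (by linarith)]
      push_cast
      ring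

/-- The open box. -/
def Bx (w : ℝ × ℝ) (ε : ℝ) : Set (ℝ × ℝ) := Ioo (w.1 - ε) (w.1 + ε) ×ˢ Ioo (w.2 - ε) (w.2 + ε)

theorem Bx_open (w : ℝ × ℝ) (ε : ℝ) : IsOpen (Bx w ε) := isOpen_Ioo.prod isOpen_Ioo

theorem Bx_convex (w : ℝ × ℝ) (ε : ℝ) : Convex ℝ (Bx w ε) :=
  (convex_Ioo _ _).prod (convex_Ioo _ _)

theorem slide {U W : Set (ℝ × ℝ)} (hU : IsOpen U) {x : ℝ × ℝ} (hx : x ∈ U) (d : ℝ × ℝ)
    (h : ∀ t : ℝ, 0 < t → x + t • d ∈ W) : x ∈ closure (U ∩ W) := by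
  have hc : Continuous fun t : ℝ => x + t • d := by fun_prop
  have ht : Filter.Tendsto (fun t : ℝ => x + t • d) (𝓝[>] 0) (𝓝 x) := by
    have := (hc.tendsto 0).mono_left (nhdsWithin_le_nhds (s := Ioi (0 : ℝ)))
    simpa using this
  refine mem_closure_of_tendsto ht ?_
  filter_upwards [ht.eventually (hU.mem_nhds hx), self_mem_nhdsWithin] with t h1 h2
  exact ⟨h1, h t h2⟩

theorem outer_pre (w : ℝ × ℝ) (ε a b : ℝ) :
    IsPreconnected (Bx w ε ∩ {x : ℝ × ℝ | x.1 < a ∨ b < x.2}) := by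
  have c1 : Convex ℝ (Bx w ε ∩ {x : ℝ × ℝ | x.1 < a}) :=
    (Bx_convex w ε).inter (convex_halfSpace_lt (LinearMap.fst ℝ ℝ ℝ).isLinear a)
  have c2 : Convex ℝ (Bx w ε ∩ {x : ℝ × ℝ | b < x.2}) :=
    (Bx_convex w ε).inter (convex_halfSpace_gt (LinearMap.snd ℝ ℝ ℝ).isLinear b)
  have e : Bx w ε ∩ {x : ℝ × ℝ | x.1 < a ∨ b < x.2} =
      (Bx w ε ∩ {x : ℝ × ℝ | x.1 < a}) ∪ (Bx w ε ∩ {x : ℝ × ℝ | b < x.2}) := by
    ext x
    simp only [mem_inter_iff, mem_union, mem_ofPred_eq]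
    tauto
  rw [e]
  rcases (Bx w ε ∩ {x : ℝ × ℝ | x.1 < a}).eq_empty_or_nonempty with h | ⟨x, hx⟩
  · rw [h, empty_union]
    exact c2.isPreconnected
  rcases (Bx w ε ∩ {x : ℝ × ℝ | b < x.2}).eq_empty_or_nonempty with h | ⟨y, hy⟩
  · rw [h, union_empty]
    exact c1.isPreconnected
  exact IsPreconnected.union (x.1, y.2) ⟨⟨hx.1.1, hy.1.2⟩, hx.2⟩ ⟨⟨hx.1.1, hy.1.2⟩, hy.2⟩
    c1.isPreconnected c2.isPreconnected

/-- The local picture at a point of an arc that is not a node. -/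
theorem local_side (e : Fin N × Fin N) (p : ℝ × ℝ) (hp : p ∈ range (ar N hN e) \ Nd N hN) :
    ∃ U W₁ W₂ : Set (ℝ × ℝ), IsOpen U ∧ p ∈ U ∧ IsPreconnected W₁ ∧ IsPreconnected W₂ ∧
      W₁ ⊆ (drawing N hN)ᶜ ∧ W₂ ⊆ (drawing N hN)ᶜ ∧ U ∩ (drawing N hN)ᶜ ⊆ W₁ ∪ W₂ ∧
      U ∩ (range (ar N hN e) \ Nd N hN) ⊆ closure W₁ ∧
      U ∩ (range (ar N hN e) \ Nd N hN) ⊆ closure W₂ := by
  obtain ⟨hp1, hp2⟩ := hp
  obtain ⟨w, rfl⟩ := exists_lift hN hp1
  obtain ⟨k, hk⟩ := (mem_arc hN _ _ w).mp hp1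
  obtain ⟨n1, n2⟩ := not_end hN e k w hk (fun h => hp2 (Or.inl h))
  set a : ℤ := ((e.2 : ℕ) : ℤ) + k * N with ha
  set b : ℤ := ((e.1 : ℕ) : ℤ) * N - ((e.2 : ℕ) : ℤ) - k * N with hb
  have h1 : (1 : ℝ) ≤ N := by exact_mod_cast hN
  have w1 : (a : ℝ) ≤ w.1 := by
    rcases hk with ⟨g1, -, -⟩ | ⟨-, g2, -⟩ <;> linarith
  -- the other arcs stay away
  have hcl : IsClosed (⋃ e' : {e' : Fin N × Fin N // e' ≠ e}, range (ar N hN e'.1)) :=
    isClosed_iUnion_of_finite fun e' => ar_closed hN e'.1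
  have hV : IsOpen ((E N hN ⁻¹' (⋃ e' : {e' : Fin N × Fin N // e' ≠ e}, range (ar N hN e'.1)))ᶜ ∩
      ({x : ℝ × ℝ | (b : ℝ) - N + 1 / 2 < x.2} ∩ ({x : ℝ × ℝ | x.1 < (a : ℝ) + N - 1 / 2} ∩
        {x : ℝ × ℝ | (a : ℝ) - 1 / 2 < x.1}))) :=
    (hcl.preimage (E_cont hN)).isOpen_compl.inter
      ((isOpen_lt continuous_const continuous_snd).inter
        ((isOpen_lt continuous_fst continuous_const).inter
          (isOpen_lt continuous_const continuous_fst)))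
  obtain ⟨ε, hε, hball⟩ := Metric.isOpen_iff.mp hV w ⟨by
    intro h
    obtain ⟨e', he'⟩ := mem_iUnion.mp h
    exact hp2 (Or.inr ⟨e'.1, e, e'.2, he', hp1⟩), n1, n2, by
      simp only [mem_ofPred_eq]
      linarith⟩
  have hbx : ∀ x ∈ Bx w ε, x ∈ Metric.ball w ε := by
    rintro x ⟨⟨x1, x2⟩, x3, x4⟩
    rw [Metric.mem_ball, Prod.dist_eq, Real.dist_eq, Real.dist_eq, max_lt_iff, abs_lt, abs_lt]
    refine ⟨⟨?_, ?_⟩, ?_, ?_⟩ <;> linarith
  have key : ∀ x ∈ Bx w ε, E N hN x ∈ drawing N hN → Gam N a b x := by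
    intro x hx hd
    obtain ⟨c1, c2, c3, c4⟩ := hball (hbx x hx)
    simp only [mem_ofPred_eq] at c2 c3 c4
    obtain ⟨e', he'⟩ := (mem_drawing hN _).mp hd
    have hee : e' = e := by
      by_contra hne
      exact c1 (mem_iUnion.mpr ⟨⟨e', hne⟩, he'⟩)
    subst hee
    obtain ⟨l, hl⟩ := (mem_arc hN _ _ x).mp he'
    have r1 : ((((e'.2 : ℕ) : ℤ) + l * N : ℤ) : ℝ) ≤ x.1 ∧
        x.1 ≤ ((((e'.2 : ℕ) : ℤ) + l * N : ℤ) : ℝ) + N - 1 / 2 := by
      rcases hl with ⟨g1, -, -⟩ | ⟨-, g2, g3⟩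
      · constructor <;> linarith
      · exact ⟨g2, g3⟩
    have r2 : ((e'.2 : ℕ) : ℤ) + l * N < a + N := by
      have : ((((e'.2 : ℕ) : ℤ) + l * N : ℤ) : ℝ) < ((a + N : ℤ) : ℝ) := by
        rw [Int.cast_add a, Int.cast_natCast N]
        linarith [r1.1]
      exact_mod_cast this
    have r3 : a < ((e'.2 : ℕ) : ℤ) + l * N + N := by
      have : (a : ℝ) < ((((e'.2 : ℕ) : ℤ) + l * N + N : ℤ) : ℝ) := by
        rw [Int.cast_add _ (N : ℤ), Int.cast_natCast N]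
        linarith [r1.2]
      exact_mod_cast this
    have r4 := mul_cases hN (l - k) (l * N - k * N) (by ring) (by omega) (by omega)
    have r5 : l * N = k * N := by omega
    rw [r5] at hl
    exact hl
  have back : ∀ x ∈ Bx w ε, ¬ ((a : ℝ) < x.1 ∧ x.2 < b) → ¬ (x.1 < a ∨ (b : ℝ) < x.2) →
      E N hN x ∈ drawing N hN := by
    intro x hx g1 g2
    obtain ⟨-, c2, c3, -⟩ := hball (hbx x hx)
    simp only [mem_ofPred_eq] at c2 c3
    rw [not_or, not_lt, not_lt] at g2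
    refine (mem_drawing hN _).mpr ⟨e, (mem_arc hN _ _ x).mpr ⟨k, ?_⟩⟩
    rcases eq_or_lt_of_le g2.1 with h | h
    · exact Or.inl ⟨h.symm, c2.le, g2.2⟩
    · have : x.2 = b := le_antisymm g2.2 (not_lt.mp fun h' => g1 ⟨h, h'⟩)
      exact Or.inr ⟨this, g2.1, c3.le⟩
  refine ⟨E N hN '' Bx w ε, E N hN '' (Bx w ε ∩ {x : ℝ × ℝ | (a : ℝ) < x.1 ∧ x.2 < b}),
    E N hN '' (Bx w ε ∩ {x : ℝ × ℝ | x.1 < a ∨ (b : ℝ) < x.2}), E_open hN _ (Bx_open w ε),
    ⟨w, ⟨⟨by linarith, by linarith⟩, by linarith, by linarith⟩, rfl⟩, ?_, ?_, ?_, ?_, ?_, ?_, ?_⟩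
  · refine IsPreconnected.image ?_ _ (E_cont hN).continuousOn
    exact ((Bx_convex w ε).inter
      ((convex_halfSpace_gt (LinearMap.fst ℝ ℝ ℝ).isLinear (a : ℝ)).inter
        (convex_halfSpace_lt (LinearMap.snd ℝ ℝ ℝ).isLinear (b : ℝ)))).isPreconnected
  · exact (outer_pre w ε a b).image _ (E_cont hN).continuousOn
  · rintro q ⟨x, ⟨hx, g1, g2⟩, rfl⟩ hd
    rcases key x hx hd with ⟨c1, -, -⟩ | ⟨c1, -, -⟩ <;> linarith
  · rintro q ⟨x, ⟨hx, g⟩, rfl⟩ hd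
    rcases key x hx hd with ⟨c1, -, c2⟩ | ⟨c1, c2, -⟩ <;> rcases g with g | g <;> linarith
  · rintro q ⟨⟨x, hx, rfl⟩, hd⟩
    by_cases g1 : (a : ℝ) < x.1 ∧ x.2 < b
    · exact Or.inl ⟨x, ⟨hx, g1⟩, rfl⟩
    by_cases g2 : x.1 < a ∨ (b : ℝ) < x.2
    · exact Or.inr ⟨x, ⟨hx, g2⟩, rfl⟩
    exact absurd (back x hx g1 g2) hd
  · rintro q ⟨⟨x, hx, rfl⟩, hd, -⟩
    refine map_mem_closure (E_cont hN) (slide (Bx_open w ε) hx (1, -1) ?_)
      (fun y hy => mem_image_of_mem _ hy)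
    intro t ht
    simp only [mem_ofPred_eq, Prod.fst_add, Prod.snd_add, Prod.smul_fst, Prod.smul_snd,
      smul_eq_mul]
    rcases key x hx ((mem_drawing hN _).mpr ⟨e, hd⟩) with ⟨c1, -, c2⟩ | ⟨c1, c2, -⟩ <;>
      constructor <;> linarith
  · rintro q ⟨⟨x, hx, rfl⟩, hd, -⟩
    refine map_mem_closure (E_cont hN) (slide (Bx_open w ε) hx (-1, 1) ?_)
      (fun y hy => mem_image_of_mem _ hy)
    intro t ht
    simp only [mem_ofPred_eq, Prod.fst_add, Prod.snd_add, Prod.smul_fst, Prod.smul_snd,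
      smul_eq_mul]
    rcases key x hx ((mem_drawing hN _).mpr ⟨e, hd⟩) with ⟨c1, -, c2⟩ | ⟨c1, c2, -⟩
    · left
      linarith
    · right
      linarith

/-- A side that touches a face lies in the closure of the face. -/
theorem side_closure (e : Fin N × Fin N) {z p : ℝ × ℝ} (hp : p ∈ range (ar N hN e) \ Nd N hN)
    (hc : p ∈ closure (connectedComponentIn (drawing N hN)ᶜ z)) :
    connectedComponentIn (range (ar N hN e) \ Nd N hN) p ⊆
      closure (connectedComponentIn (drawing N hN)ᶜ z) :=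
  side_general (local_side hN e) hp hc

end Pool.Agent.Lib.MP_24d225_co
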