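import Mathlib
import Pool.Agent.Lib.MP_24d225_co.H54Dual

/-!
The faces of the drawing are the faces of the unit squares of the cover.
-/

set_option autoImplicit false

namespace Pool.Agent.Lib.MP_24d225_co

open Set Topology

/-- The open unit square. -/
def Sq (a b : ℤ) : Set (ℝ × ℝ) := Ioo (a : ℝ) (a + 1) ×ˢ Ioo (b : ℝ) (b + 1)

/-- The centre of the unit square. -/
noncomputable def ctr (a b : ℤ) : ℝ × ℝ := ((a : ℝ) + 1 / 2, (b : ℝ) + 1 / 2)

/-- The face that contains the unit square. -/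
def Fq (N : ℕ) (hN : 0 < N) (a b : ℤ) : Set (ℝ × ℝ) :=
  connectedComponentIn (drawing N hN)ᶜ (E N hN (ctr a b))

variable {N : ℕ} (hN : 0 < N)

theorem ctr_mem (a b : ℤ) : ctr a b ∈ Sq a b := by
  unfold ctr Sq
  refine ⟨⟨?_, ?_⟩, ?_, ?_⟩ <;> linarith

theorem Sq_pre (a b : ℤ) : IsPreconnected (E N hN '' Sq a b) :=
  ((convex_Ioo _ _).prod (convex_Ioo _ _)).isPreconnected.image _ (E_cont hN).continuousOn

theorem no_int {a z : ℤ} (h1 : (a : ℝ) < z) (h2 : (z : ℝ) < a + 1) : False := by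
  have h3 : a < z := by exact_mod_cast h1
  have h4 : z < a + 1 := by exact_mod_cast h2
  omega

theorem Sq_off (a b : ℤ) : E N hN '' Sq a b ⊆ (drawing N hN)ᶜ := by
  rintro q ⟨w, ⟨⟨h1, h2⟩, h3, h4⟩, rfl⟩ hd
  obtain ⟨e, he⟩ := (mem_drawing hN _).mp hd
  obtain ⟨k, hk⟩ := (mem_arc hN _ _ w).mp he
  rcases hk with ⟨g, -, -⟩ | ⟨g, -, -⟩
  · rw [g] at h1 h2
    exact no_int h1 h2
  · rw [g] at h3 h4
    exact no_int h3 h4

theorem ctr_off (a b : ℤ) : E N hN (ctr a b) ∉ drawing N hN :=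
  Sq_off hN a b ⟨_, ctr_mem a b, rfl⟩

theorem Sq_sub (a b : ℤ) : E N hN '' Sq a b ⊆ Fq N hN a b :=
  (Sq_pre hN a b).subset_connectedComponentIn ⟨_, ctr_mem a b, rfl⟩ (Sq_off hN a b)

theorem face_sq {z : ℝ × ℝ} (hz : z ∉ drawing N hN) :
    ∃ a b : ℤ, connectedComponentIn (drawing N hN)ᶜ z = Fq N hN a b := by
  have ho : IsOpen (connectedComponentIn (drawing N hN)ᶜ z) :=
    (drawing_closed hN).isOpen_compl.connectedComponentIn
  have hne : (connectedComponentIn (drawing N hN)ᶜ z).Nonempty := ⟨z, mem_connectedComponentIn hz⟩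
  obtain ⟨q, hq0, hq⟩ := (dense_compl_singleton (0 : ℝ × ℝ)).exists_mem_open ho hne
  obtain ⟨w, rfl⟩ := E_surj hN q hq0
  obtain ⟨x, ⟨hx1, hx2⟩, hx⟩ := (dense_irrational.prod dense_irrational).exists_mem_open
    (ho.preimage (E_cont hN)) ⟨w, hq⟩
  have hs : x ∈ Sq ⌊x.1⌋ ⌊x.2⌋ :=
    ⟨⟨lt_of_le_of_ne (Int.floor_le _) (Irrational.ne_int hx1 _).symm, Int.lt_floor_add_one _⟩,
      lt_of_le_of_ne (Int.floor_le _) (Irrational.ne_int hx2 _).symm, Int.lt_floor_add_one _⟩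
  refine ⟨⌊x.1⌋, ⌊x.2⌋, ?_⟩
  rw [connectedComponentIn_eq hx]
  exact (connectedComponentIn_eq (Sq_sub hN _ _ ⟨x, hs, rfl⟩)).symm

/-- Two squares that touch at a point whose time is neither an integer nor a half integer. -/
theorem step_general (a b a' b' : ℤ) (m : ℝ × ℝ) (h1 : m ∈ closure (Sq a b))
    (h2 : m ∈ closure (Sq a' b')) (c : ℤ) (hm : m.1 + m.2 = c + 1 / 4) :
    Fq N hN a b = Fq N hN a' b' ∨ ∃ e p, p ∈ range (ar N hN e) \ Nd N hN ∧
      p ∈ closure (Fq N hN a b) ∧ p ∈ closure (Fq N hN a' b') := by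
  have g1 : E N hN m ∈ closure (E N hN '' Sq a b) :=
    map_mem_closure (E_cont hN) h1 fun y hy => mem_image_of_mem _ hy
  have g2 : E N hN m ∈ closure (E N hN '' Sq a' b') :=
    map_mem_closure (E_cont hN) h2 fun y hy => mem_image_of_mem _ hy
  by_cases hd : E N hN m ∈ drawing N hN
  · right
    obtain ⟨e, he⟩ := (mem_drawing hN _).mp hd
    refine ⟨e, _, ⟨he, ?_⟩, closure_mono (Sq_sub hN a b) g1, closure_mono (Sq_sub hN a' b') g2⟩
    rintro (⟨u, hu⟩ | ⟨e1, e2, hne, c1, c2⟩)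
    · have := E_time hN hu
      rw [hook_time, hm] at this
      rcases u with ⟨e', bb⟩
      cases bb
      · simp only [Bool.false_eq_true, if_false, Set.Icc.coe_zero] at this
        push_cast at this
        have h3 : (4 * ((e'.1 : ℕ) * N - N - c) + 1 : ℝ) = 0 := by linarith
        have h4 : (4 * ((e'.1 : ℕ) * N - N - c) + 1 : ℤ) = 0 := by exact_mod_cast h3
        omega
      · simp only [if_true, Set.Icc.coe_one] at this
        push_cast at this
        have h3 : (4 * ((e'.1 : ℕ) * N + N - c) - 3 : ℝ) = 0 := by linarith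
        have h4 : (4 * ((e'.1 : ℕ) * N + N - c) - 3 : ℤ) = 0 := by exact_mod_cast h3
        omega
    · obtain ⟨z, hz⟩ := arc_inter_int hN (idx0 _) (idx1 _) (idx0 _) (idx1 _) (idx_ne hne) c1 c2
      rw [hm] at hz
      have h3 : (4 * (c - z) + 1 : ℝ) = 0 := by linarith
      have h4 : (4 * (c - z) + 1 : ℤ) = 0 := by exact_mod_cast h3
      omega
  · left
    have aux : ∀ a b : ℤ, E N hN m ∈ closure (E N hN '' Sq a b) →
        Fq N hN a b = connectedComponentIn (drawing N hN)ᶜ (E N hN m) := by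
      intro a b h
      have hp : IsPreconnected (insert (E N hN m) (E N hN '' Sq a b)) :=
        (Sq_pre hN a b).subset_closure (subset_insert _ _)
          (insert_subset h subset_closure)
      exact connectedComponentIn_eq (hp.subset_connectedComponentIn
        (mem_insert_of_mem _ ⟨_, ctr_mem a b, rfl⟩) (insert_subset hd (Sq_off hN a b))
        (mem_insert _ _))
    rw [aux a b g1, aux a' b' g2]

theorem closure_Sq (a b : ℤ) (m : ℝ × ℝ) (h1 : (a : ℝ) ≤ m.1) (h2 : m.1 ≤ a + 1)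
    (h3 : (b : ℝ) ≤ m.2) (h4 : m.2 ≤ b + 1) : m ∈ closure (Sq a b) := by
  unfold Sq
  rw [closure_prod_eq, closure_Ioo (by linarith), closure_Ioo (by linarith)]
  exact ⟨⟨h1, h2⟩, h3, h4⟩

theorem step_x (a b : ℤ) :
    Fq N hN a b = Fq N hN (a + 1) b ∨ ∃ e p, p ∈ range (ar N hN e) \ Nd N hN ∧
      p ∈ closure (Fq N hN a b) ∧ p ∈ closure (Fq N hN (a + 1) b) := by
  refine step_general hN a b (a + 1) b ((a : ℝ) + 1, (b : ℝ) + 1 / 4) ?_ ?_ (a + b + 1) ?_
  · refine closure_Sq _ _ _ ?_ ?_ ?_ ?_ <;> simp only [] <;> linarith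
  · refine closure_Sq _ _ _ ?_ ?_ ?_ ?_ <;> simp only [] <;> push_cast <;> linarith
  · push_cast
    ring

theorem step_y (a b : ℤ) :
    Fq N hN a b = Fq N hN a (b + 1) ∨ ∃ e p, p ∈ range (ar N hN e) \ Nd N hN ∧
      p ∈ closure (Fq N hN a b) ∧ p ∈ closure (Fq N hN a (b + 1)) := by
  refine step_general hN a b a (b + 1) ((a : ℝ) + 1 / 4, (b : ℝ) + 1) ?_ ?_ (a + b + 1) ?_
  · refine closure_Sq _ _ _ ?_ ?_ ?_ ?_ <;> simp only [] <;> linarith
  · refine closure_Sq _ _ _ ?_ ?_ ?_ ?_ <;> simp only [] <;> push_cast <;> linarith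
  · push_cast
    ring

theorem drawing_time {w : ℝ × ℝ} (h : E N hN w ∈ drawing N hN) :
    -(N : ℝ) ≤ w.1 + w.2 ∧ w.1 + w.2 ≤ (N : ℝ) * N := by
  obtain ⟨e, he⟩ := (mem_drawing hN _).mp h
  have h2 : ((e.1 : ℕ) : ℝ) + 1 ≤ N := by exact_mod_cast e.1.2
  have h3 : (0 : ℝ) ≤ N := by positivity
  have h4 : (0 : ℝ) ≤ ((e.1 : ℕ) : ℝ) := by positivity
  constructor
  · obtain ⟨k, hk⟩ := (mem_arc hN _ _ w).mp he
    have h5 : (0 : ℝ) ≤ ((e.1 : ℕ) : ℝ) * N := by positivity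
    rcases hk with ⟨g1, g2, g3⟩ | ⟨g1, g2, g3⟩
    · push_cast at g1 g2 g3
      linarith
    · push_cast at g1 g2 g3
      linarith
  · have h1 := arc_time hN he
    push_cast at h1
    nlinarith

theorem Fq_of_convex {R : Set (ℝ × ℝ)} (hR : Convex ℝ R)
    (hoff : ∀ w ∈ R, E N hN w ∉ drawing N hN) {a b a' b' : ℤ} (h1 : ctr a b ∈ R)
    (h2 : ctr a' b' ∈ R) : Fq N hN a b = Fq N hN a' b' := by
  have hp : IsPreconnected (E N hN '' R) := hR.isPreconnected.image _ (E_cont hN).continuousOn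
  refine connectedComponentIn_eq (hp.subset_connectedComponentIn ⟨_, h1, rfl⟩ ?_ ⟨_, h2, rfl⟩)
  rintro q ⟨w, hw, rfl⟩
  exact hoff w hw

theorem faces_finite : (range fun ab : ℤ × ℤ => Fq N hN ab.1 ab.2).Finite := by
  have hN' : (0 : ℤ) < N := by exact_mod_cast hN
  have hNN : (0 : ℤ) ≤ (N : ℤ) * N := by positivity
  refine (((finite_Icc (0 : ℤ) N).prod (finite_Icc (-(2 * N : ℤ) - 2) (N * N))).image
    (fun ab : ℤ × ℤ => Fq N hN ab.1 ab.2)).subset ?_
  rintro F ⟨⟨a, b⟩, rfl⟩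
  have lin : IsLinearMap ℝ fun w : ℝ × ℝ => w.1 + w.2 :=
    (LinearMap.fst ℝ ℝ ℝ + LinearMap.snd ℝ ℝ ℝ).isLinear
  by_cases h1 : a + b + 1 < -(N : ℤ)
  · refine ⟨(0, -(N : ℤ) - 2), ⟨⟨le_rfl, hN'.le⟩, by simp only []; omega, by simp only []; omega⟩,
      ?_⟩
    refine Fq_of_convex hN (convex_halfSpace_lt lin (-(N : ℝ)))
      (fun w hw hd => absurd (drawing_time hN hd).1 (not_le.mpr hw)) ?_ ?_
    · simp only [ctr, mem_ofPred_eq]
      push_cast
      linarith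
    · simp only [ctr, mem_ofPred_eq]
      have : ((a + b + 1 : ℤ) : ℝ) < ((-(N : ℤ) : ℤ) : ℝ) := by exact_mod_cast h1
      push_cast at this
      linarith
  by_cases h2 : (N : ℤ) * N < a + b + 1
  · refine ⟨(0, (N : ℤ) * N), ⟨⟨le_rfl, hN'.le⟩, by simp only []; omega, le_rfl⟩, ?_⟩
    refine Fq_of_convex hN (convex_halfSpace_gt lin ((N : ℝ) * N))
      (fun w hw hd => absurd (drawing_time hN hd).2 (not_le.mpr hw)) ?_ ?_
    · simp only [ctr, mem_ofPred_eq]
      push_cast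
      linarith
    · simp only [ctr, mem_ofPred_eq]
      have : (((N : ℤ) * N : ℤ) : ℝ) < ((a + b + 1 : ℤ) : ℝ) := by exact_mod_cast h2
      push_cast at this
      linarith
  have e0 := Int.emod_nonneg a hN'.ne'
  have e1 := Int.emod_lt_of_pos a hN'
  have e2 : a % N + a / N * N = a := by
    rw [mul_comm]
    exact Int.emod_add_mul_ediv a N
  refine ⟨(a % N, b + a / N * N), ⟨⟨e0, e1.le⟩, by simp only []; omega, by simp only []; omega⟩, ?_⟩
  simp only [Fq]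
  congr 1
  symm
  refine (E_eq_iff hN _ _).mpr ⟨a / N, ?_, ?_⟩
  · simp only [ctr]
    have : ((a % N + a / N * N : ℤ) : ℝ) = a := by exact_mod_cast e2
    rw [Int.cast_add, Int.cast_mul, Int.cast_natCast] at this
    linarith
  · simp only [ctr]
    push_cast
    ring

end Pool.Agent.Lib.MP_24d225_co
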